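import Mathlib

/-!
# Real points, polarization
-/

set_option autoImplicit false

open Filter Topology Set Metric

namespace Pool.Agent.T2H76.HR

/-- a function of one variable which is analytic on a disc and vanishes at the real points of
the disc vanishes. -/
theorem one_real {r : ℝ} {f : ℂ → ℂ} (hf : AnalyticOnNhd ℂ f (ball 0 r))
    (h : ∀ x : ℝ, (x : ℂ) ∈ ball (0 : ℂ) r → f x = 0) : ∀ z ∈ ball (0 : ℂ) r, f z = 0 := by
  intro z hz
  have hr : 0 < r := lt_of_le_of_lt (norm_nonneg z) (by simpa using hz)
  refine hf.eqOn_zero_of_preconnected_of_frequently_eq_zero (convex_ball 0 r).isPreconnected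
    (mem_ball_self hr) ?_ hz
  have h1 : Tendsto (fun n : ℕ => ((1 / ((n : ℝ) + 1) : ℝ) : ℂ)) atTop (𝓝[≠] 0) := by
    rw [tendsto_nhdsWithin_iff]
    constructor
    · have := tendsto_one_div_add_atTop_nhds_zero_nat (𝕜 := ℝ)
      have h2 := (Complex.continuous_ofReal.tendsto 0).comp this
      rw [Complex.ofReal_zero] at h2
      exact h2
    · filter_upwards with n
      simp only [mem_compl_iff, mem_singleton_iff, Complex.ofReal_eq_zero]
      positivity
  have h2 : ∀ᶠ n : ℕ in atTop, ((1 / ((n : ℝ) + 1) : ℝ) : ℂ) ∈ ball (0 : ℂ) r :=
    (tendsto_nhdsWithin_iff.1 h1).1.eventually (ball_mem_nhds 0 hr)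
  exact h1.frequently (h2.mono fun n hn => h _ hn).frequently

/-- the same in several variables -/
theorem several_real {ι : Type*} [Fintype ι] {r : ℝ} {F : (ι → ℂ) → ℂ}
    (hF : AnalyticOnNhd ℂ F (ball 0 r))
    (h : ∀ x : ι → ℝ, (fun i => (x i : ℂ)) ∈ ball (0 : ι → ℂ) r → F (fun i => (x i : ℂ)) = 0) :
    ∀ z ∈ ball (0 : ι → ℂ) r, F z = 0 := by
  classical
  have key : ∀ S : Finset ι, ∀ z ∈ ball (0 : ι → ℂ) r, (∀ i ∉ S, (z i).im = 0) → F z = 0 := by
    intro S
    induction S using Finset.induction_on with
    | empty =>
      intro z hz h0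
      have h1 : z = fun i => ((z i).re : ℂ) := by
        funext i
        apply Complex.ext <;> simp [h0 i (Finset.notMem_empty i)]
      rw [h1] at hz ⊢
      exact h _ hz
    | insert i S hi ih =>
      intro z hz h0
      have hr : 0 < r := lt_of_le_of_lt (norm_nonneg z) (by simpa using hz)
      have hmem : ∀ t : ℂ, t ∈ ball (0 : ℂ) r → Function.update z i t ∈ ball (0 : ι → ℂ) r := by
        intro t ht
        rw [mem_ball_zero_iff, pi_norm_lt_iff hr] at hz ⊢
        intro j
        by_cases hj : j = i
        · subst hj
          simpa using ht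
        · rw [Function.update_of_ne hj]
          exact hz j
      have hφ : AnalyticOnNhd ℂ (fun t => F (Function.update z i t)) (ball 0 r) := by
        intro t ht
        have h1 : AnalyticAt ℂ (fun t : ℂ => Function.update z i t) t := by
          rw [analyticAt_pi_iff]
          intro j
          by_cases hj : j = i
          · subst hj
            simp only [Function.update_self]
            exact analyticAt_id
          · simp only [Function.update_of_ne hj]
            exact analyticAt_const
        exact (hF _ (hmem t ht)).fun_comp h1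
      have h2 := one_real hφ (fun x hx => ih _ (hmem _ hx) (fun j hj => by
        by_cases hji : j = i
        · subst hji
          simp
        · rw [Function.update_of_ne hji]
          exact h0 j (by simp [hji, hj])))
      have h3 := h2 (z i) (by
        rw [mem_ball_zero_iff, pi_norm_lt_iff hr] at hz
        simpa using hz i)
      simpa using h3
  intro z hz
  exact key Finset.univ z hz (fun i hi => absurd (Finset.mem_univ i) hi)

end Pool.Agent.T2H76.HR
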