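import Mathlib
import Pool.Agent.T2H76.HR.A

/-!
# Complexification of a real analytic function
-/

set_option autoImplicit false

open Filter Topology Set Metric
open scoped NNReal ENNReal

namespace Pool.Agent.T2H76.HR

variable {ι : Type*} [Fintype ι] [DecidableEq ι]

/-- complexification of the coefficients -/
noncomputable def cxSeries (q : FormalMultilinearSeries ℝ (ι → ℝ) ℝ) :
    FormalMultilinearSeries ℂ (ι → ℂ) ℂ := fun m =>
  ∑ J : Fin m → ι, ((q m (fun l => Pi.single (J l) 1) : ℝ) : ℂ) •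
    (ContinuousMultilinearMap.mkPiAlgebra ℂ (Fin m) ℂ).compContinuousLinearMap
      (fun l => ContinuousLinearMap.proj (R := ℂ) (φ := fun _ : ι => ℂ) (J l))

theorem cxSeries_apply (q : FormalMultilinearSeries ℝ (ι → ℝ) ℝ) (m : ℕ) (z : Fin m → ι → ℂ) :
    cxSeries q m z = ∑ J : Fin m → ι, ((q m (fun l => Pi.single (J l) 1) : ℝ) : ℂ) *
      ∏ l, z l (J l) := by
  simp [cxSeries, ContinuousMultilinearMap.sum_apply]

theorem cxSeries_norm (q : FormalMultilinearSeries ℝ (ι → ℝ) ℝ) (m : ℕ) :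
    ‖cxSeries q m‖ ≤ (Fintype.card ι : ℝ) ^ m * ‖q m‖ := by
  refine ContinuousMultilinearMap.opNorm_le_bound (by positivity) fun z => ?_
  rw [cxSeries_apply]
  refine (norm_sum_le _ _).trans ?_
  have h1 : ∀ J : Fin m → ι, ‖((q m (fun l => Pi.single (J l) 1) : ℝ) : ℂ) * ∏ l, z l (J l)‖ ≤
      ‖q m‖ * ∏ l, ‖z l‖ := by
    intro J
    rw [norm_mul]
    refine mul_le_mul ?_ ?_ (norm_nonneg _) (norm_nonneg _)
    · rw [Complex.norm_real]
      refine ((q m).le_opNorm _).trans ?_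
      have h2 : ∏ l, ‖(Pi.single (J l) 1 : ι → ℝ)‖ ≤ 1 := by
        refine Finset.prod_le_one (fun _ _ => norm_nonneg _) fun l _ => ?_
        rw [pi_norm_le_iff_of_nonneg zero_le_one]
        intro i
        by_cases hi : i = J l
        · subst hi
          simp
        · simp [Pi.single_eq_of_ne hi]
      calc ‖q m‖ * ∏ l, ‖(Pi.single (J l) 1 : ι → ℝ)‖ ≤ ‖q m‖ * 1 :=
            mul_le_mul_of_nonneg_left h2 (norm_nonneg _)
        _ = ‖q m‖ := mul_one _
    · rw [norm_prod]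
      exact Finset.prod_le_prod (fun _ _ => norm_nonneg _) fun l _ => norm_le_pi_norm _ _
  refine (Finset.sum_le_sum fun J _ => h1 J).trans ?_
  rw [Finset.sum_const, Finset.card_univ, Fintype.card_fun, Fintype.card_fin, nsmul_eq_mul]
  push_cast
  rw [mul_assoc]

theorem cxSeries_real (q : FormalMultilinearSeries ℝ (ι → ℝ) ℝ) (m : ℕ) (x : ι → ℝ) :
    cxSeries q m (fun _ => fun i => (x i : ℂ)) = ((q m (fun _ => x) : ℝ) : ℂ) := by
  have h1 : x = ∑ i, x i • (Pi.single i (1 : ℝ) : ι → ℝ) := by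
    have := pi_eq_sum_univ' x
    convert this using 2
  have h2 : q m (fun _ => x) = ∑ J : Fin m → ι, (∏ l, x (J l)) *
      q m (fun l => Pi.single (J l) 1) := by
    conv_lhs => rw [show (fun _ : Fin m => x) =
      fun _ : Fin m => ∑ i, x i • (Pi.single i (1 : ℝ) : ι → ℝ) from funext fun _ => h1]
    rw [ContinuousMultilinearMap.map_sum]
    refine Finset.sum_congr rfl fun J _ => ?_
    rw [ContinuousMultilinearMap.map_smul_univ, smul_eq_mul]
  rw [cxSeries_apply, h2]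
  push_cast
  exact Finset.sum_congr rfl fun J _ => by rw [mul_comm]

/-- **Complexification.** -/
theorem complexify (f : (ι → ℝ) → ℝ) (hf : AnalyticAt ℝ f 0) :
    ∃ r : ℝ, 0 < r ∧ ∃ F : (ι → ℂ) → ℂ, AnalyticOnNhd ℂ F (ball 0 r) ∧
      ∀ x : ι → ℝ, x ∈ ball (0 : ι → ℝ) r → F (fun i => (x i : ℂ)) = f x := by
  obtain ⟨q, R, hq⟩ := hf
  obtain ⟨r0, h0, h0R⟩ : ∃ r0 : ℝ≥0, 0 < r0 ∧ (r0 : ℝ≥0∞) < R := by
    obtain ⟨r0, h1, h2⟩ := ENNReal.lt_iff_exists_nnreal_btwn.1 hq.r_pos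
    exact ⟨r0, by exact_mod_cast h1, h2⟩
  obtain ⟨C, hC, hqC⟩ := q.norm_mul_pow_le_of_lt_radius (h0R.trans_le hq.r_le)
  set N : ℝ≥0 := (Fintype.card ι : ℝ≥0) + 1 with hN
  have hN1 : 1 ≤ N := by simp [hN]
  have hN0 : 0 < N := lt_of_lt_of_le one_pos hN1
  set r1 : ℝ≥0 := r0 / N with hr1
  have hr1pos : 0 < r1 := div_pos h0 hN0
  have hr1le : r1 ≤ r0 := div_le_self zero_le hN1
  have hrad : (r1 : ℝ≥0∞) ≤ (cxSeries q).radius := by
    refine FormalMultilinearSeries.le_radius_of_bound _ C fun m => ?_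
    calc ‖cxSeries q m‖ * (r1 : ℝ) ^ m ≤ ((Fintype.card ι : ℝ) ^ m * ‖q m‖) * (r1 : ℝ) ^ m :=
          mul_le_mul_of_nonneg_right (cxSeries_norm q m) (by positivity)
      _ ≤ ((N : ℝ) ^ m * ‖q m‖) * (r1 : ℝ) ^ m := by
          have : (Fintype.card ι : ℝ) ≤ (N : ℝ) := by
            rw [hN]
            push_cast
            linarith
          gcongr
      _ = ‖q m‖ * (r0 : ℝ) ^ m := by
          rw [hr1]
          push_cast
          have : (N : ℝ) ≠ 0 := by exact_mod_cast hN0.ne'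
          rw [div_pow]
          field_simp
      _ ≤ C := hqC m
  have hpos : 0 < (cxSeries q).radius := lt_of_lt_of_le (by exact_mod_cast hr1pos) hrad
  have hF := (cxSeries q).hasFPowerSeriesOnBall hpos
  refine ⟨r1, by exact_mod_cast hr1pos, (cxSeries q).sum, ?_, ?_⟩
  · refine hF.analyticOnNhd.mono fun z hz => ?_
    rw [mem_ball_zero_iff] at hz
    rw [Metric.mem_eball, edist_zero_right]
    refine lt_of_lt_of_le ?_ hrad
    rw [enorm_eq_nnnorm]
    exact_mod_cast hz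
  · intro x hx
    rw [mem_ball_zero_iff] at hx
    have hx1 : x ∈ Metric.eball (0 : ι → ℝ) R := by
      rw [Metric.mem_eball, edist_zero_right]
      refine lt_of_lt_of_le ?_ h0R.le
      rw [enorm_eq_nnnorm]
      exact_mod_cast lt_of_lt_of_le hx (by exact_mod_cast hr1le)
    have h1 := hq.hasSum hx1
    rw [zero_add] at h1
    have h2 : HasSum (fun m => cxSeries q m (fun _ => fun i => (x i : ℂ))) ((f x : ℝ) : ℂ) := by
      simp only [cxSeries_real]
      exact (Complex.hasSum_ofReal.2 h1)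
    exact h2.tsum_eq

end Pool.Agent.T2H76.HR
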