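import Mathlib
import Pool.Agent.T2H76.HR.B

/-!
# Polarization of a real analytic function, and its uniqueness
-/

set_option autoImplicit false

open Filter Topology Set Metric
open scoped NNReal ENNReal

namespace Pool.Agent.T2H76.HR

variable {κ : Type*} [Fintype κ]

theorem analyticAt_coord_fst (i : κ) (w : (κ → ℂ) × (κ → ℂ)) :
    AnalyticAt ℂ (fun w : (κ → ℂ) × (κ → ℂ) => w.1 i) w :=
  ((ContinuousLinearMap.proj (R := ℂ) (φ := fun _ : κ => ℂ) i).comp
    (ContinuousLinearMap.fst ℂ (κ → ℂ) (κ → ℂ))).analyticAt w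

theorem analyticAt_coord_snd (i : κ) (w : (κ → ℂ) × (κ → ℂ)) :
    AnalyticAt ℂ (fun w : (κ → ℂ) × (κ → ℂ) => w.2 i) w :=
  ((ContinuousLinearMap.proj (R := ℂ) (φ := fun _ : κ => ℂ) i).comp
    (ContinuousLinearMap.snd ℂ (κ → ℂ) (κ → ℂ))).analyticAt w

theorem polarize (p : (κ → ℂ) → ℝ) (z0 : κ → ℂ) (hp : AnalyticAt ℝ p z0) :
    ∃ r : ℝ, 0 < r ∧ ∃ P : (κ → ℂ) → (κ → ℂ) → ℂ,
      AnalyticOnNhd ℂ (fun w : (κ → ℂ) × (κ → ℂ) => P w.1 w.2) (ball z0 r ×ˢ ball (star z0) r) ∧
      ∀ z ∈ ball z0 r, P z (star z) = p z := by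
  classical
  let L : (κ ⊕ κ → ℝ) →L[ℝ] (κ → ℂ) := ContinuousLinearMap.pi fun i =>
    Complex.ofRealCLM.comp (ContinuousLinearMap.proj (Sum.inl i)) +
    (Complex.I • (Complex.ofRealCLM.comp (ContinuousLinearMap.proj (Sum.inr i))))
  have hL : ∀ (x : κ ⊕ κ → ℝ) (i : κ), L x i = (x (Sum.inl i) : ℂ) +
      Complex.I * (x (Sum.inr i) : ℂ) := by
    intro x i
    simp [L]
  have hf : AnalyticAt ℝ (fun x => p (z0 + L x)) 0 := by
    have h1 : AnalyticAt ℝ (fun x : κ ⊕ κ → ℝ => z0 + L x) 0 :=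
      analyticAt_const.add (L.analyticAt 0)
    refine AnalyticAt.fun_comp (g := p) (f := fun x : κ ⊕ κ → ℝ => z0 + L x) ?_ h1
    simpa using hp
  obtain ⟨r, hr, F, hF, hFf⟩ := complexify _ hf
  let Φ : (κ → ℂ) × (κ → ℂ) → κ ⊕ κ → ℂ := fun w =>
    Sum.elim (fun i => (w.1 i - z0 i + (w.2 i - star (z0 i))) / 2)
      (fun i => (w.1 i - z0 i - (w.2 i - star (z0 i))) / (2 * Complex.I))
  have hΦ : ∀ w, AnalyticAt ℂ Φ w := by
    intro w
    rw [analyticAt_pi_iff]
    rintro (i | i)
    · have h1 := analyticAt_coord_fst i w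
      have h2 := analyticAt_coord_snd i w
      simp only [Φ, Sum.elim_inl]
      fun_prop
    · have h1 := analyticAt_coord_fst i w
      have h2 := analyticAt_coord_snd i w
      simp only [Φ, Sum.elim_inr]
      fun_prop (disch := simp)
  have hΦmem : ∀ w ∈ ball z0 r ×ˢ ball (star z0) r, Φ w ∈ ball (0 : κ ⊕ κ → ℂ) r := by
    rintro w ⟨h1, h2⟩
    rw [mem_ball_iff_norm, pi_norm_lt_iff hr] at h1 h2
    rw [mem_ball_zero_iff, pi_norm_lt_iff hr]
    rintro (i | i)
    · simp only [Φ, Sum.elim_inl]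
      have h3 := h1 i
      have h4 := h2 i
      simp only [Pi.sub_apply, Pi.star_apply] at h3 h4
      rw [norm_div, Complex.norm_ofNat, div_lt_iff₀ two_pos]
      calc _ ≤ _ := norm_add_le _ _
        _ < r * 2 := by linarith
    · simp only [Φ, Sum.elim_inr]
      have h3 := h1 i
      have h4 := h2 i
      simp only [Pi.sub_apply, Pi.star_apply] at h3 h4
      rw [norm_div, norm_mul, Complex.norm_ofNat, Complex.norm_I, mul_one, div_lt_iff₀ two_pos]
      calc _ ≤ _ := norm_sub_le _ _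
        _ < r * 2 := by linarith
  refine ⟨r, hr, fun z v => F (Φ (z, v)), ?_, ?_⟩
  · intro w hw
    exact (hF _ (hΦmem w hw)).fun_comp (hΦ w)
  · intro z hz
    have hz' : (z, star z) ∈ ball z0 r ×ˢ ball (star z0) r := by
      refine ⟨hz, ?_⟩
      simp only
      rw [mem_ball_iff_norm] at hz ⊢
      rw [← star_sub, norm_star]
      exact hz
    have h1 : Φ (z, star z) = fun j => ((Sum.elim (fun i => (z i - z0 i).re)
        (fun i => (z i - z0 i).im) j : ℝ) : ℂ) := by
      funext j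
      rcases j with i | i
      · simp only [Φ, Sum.elim_inl, Pi.star_apply]
        rw [← star_sub, ← starRingEnd_apply, Complex.add_conj]
        push_cast
        ring
      · simp only [Φ, Sum.elim_inr, Pi.star_apply]
        rw [← star_sub, ← starRingEnd_apply, Complex.sub_conj]
        have : Complex.I ≠ 0 := Complex.I_ne_zero
        push_cast
        field_simp
    have h2 := hΦmem _ hz'
    rw [h1] at h2
    have h3 : Sum.elim (fun i => (z i - z0 i).re) (fun i => (z i - z0 i).im) ∈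
        ball (0 : κ ⊕ κ → ℝ) r := by
      rw [mem_ball_zero_iff, pi_norm_lt_iff hr] at h2 ⊢
      intro j
      have := h2 j
      rwa [Complex.norm_real] at this
    have h4 := hFf _ h3
    simp only
    rw [h1, h4]
    congr 2
    funext i
    simp only [Pi.add_apply, hL, Sum.elim_inl, Sum.elim_inr]
    have := Complex.re_add_im (z i - z0 i)
    rw [mul_comm] at this
    rw [this]
    ring

/-- **Uniqueness of the polarization.** -/
theorem polar_unique {r : ℝ} (z0 : κ → ℂ) {F : (κ → ℂ) × (κ → ℂ) → ℂ}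
    (hF : AnalyticOnNhd ℂ F (ball z0 r ×ˢ ball (star z0) r))
    (h : ∀ z ∈ ball z0 r, F (z, star z) = 0) :
    ∀ w ∈ ball z0 r ×ˢ ball (star z0) r, F w = 0 := by
  classical
  intro w hw
  have hr : 0 < r := lt_of_le_of_lt (norm_nonneg (w.1 - z0)) (by
    have := hw.1
    rwa [mem_ball_iff_norm] at this)
  -- the function in real coordinates
  let Ψ : (κ ⊕ κ → ℂ) → (κ → ℂ) × (κ → ℂ) := fun u =>
    (fun i => z0 i + (u (Sum.inl i) + Complex.I * u (Sum.inr i)),
      fun i => star (z0 i) + (u (Sum.inl i) - Complex.I * u (Sum.inr i)))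
  have hco : ∀ (j : κ ⊕ κ) (u : κ ⊕ κ → ℂ), AnalyticAt ℂ (fun u : κ ⊕ κ → ℂ => u j) u :=
    fun j u => (ContinuousLinearMap.proj (R := ℂ) (φ := fun _ : κ ⊕ κ => ℂ) j).analyticAt u
  have hΨ : ∀ u, AnalyticAt ℂ Ψ u := by
    intro u
    refine AnalyticAt.prod ?_ ?_
    · rw [analyticAt_pi_iff]
      intro i
      have h1 := hco (Sum.inl i) u
      have h2 := hco (Sum.inr i) u
      exact analyticAt_const.add (h1.add (analyticAt_const.mul h2))
    · rw [analyticAt_pi_iff]
      intro i
      have h1 := hco (Sum.inl i) u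
      have h2 := hco (Sum.inr i) u
      exact analyticAt_const.add (h1.sub (analyticAt_const.mul h2))
  have hmem : ∀ u ∈ ball (0 : κ ⊕ κ → ℂ) (r / 2), Ψ u ∈ ball z0 r ×ˢ ball (star z0) r := by
    intro u hu
    rw [mem_ball_zero_iff, pi_norm_lt_iff (by positivity)] at hu
    constructor
    · rw [mem_ball_iff_norm, pi_norm_lt_iff hr]
      intro i
      simp only [Ψ, Pi.sub_apply, add_sub_cancel_left]
      calc _ ≤ _ := norm_add_le _ _
        _ < r := by
          rw [norm_mul, Complex.norm_I, one_mul]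
          linarith [hu (Sum.inl i), hu (Sum.inr i)]
    · rw [mem_ball_iff_norm, pi_norm_lt_iff hr]
      intro i
      simp only [Ψ, Pi.sub_apply, Pi.star_apply, add_sub_cancel_left]
      calc _ ≤ _ := norm_sub_le _ _
        _ < r := by
          rw [norm_mul, Complex.norm_I, one_mul]
          linarith [hu (Sum.inl i), hu (Sum.inr i)]
  have h1 : ∀ u ∈ ball (0 : κ ⊕ κ → ℂ) (r / 2), F (Ψ u) = 0 := by
    refine several_real (F := fun u => F (Ψ u)) (fun u hu => (hF _ (hmem u hu)).fun_comp (hΨ u)) ?_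
    intro x hx
    have h2 : Ψ (fun j => (x j : ℂ)) =
        ((Ψ (fun j => (x j : ℂ))).1, star (Ψ (fun j => (x j : ℂ))).1) := by
      ext i
      · rfl
      · simp only [Ψ, Pi.star_apply, ← starRingEnd_apply]
        simp only [map_add, map_mul, Complex.conj_ofReal, Complex.conj_I]
        ring
    rw [h2]
    exact h _ (hmem _ hx).1
  -- now `F` vanishes near the centre
  have h3 : F =ᶠ[𝓝 (z0, star z0)] 0 := by
    have h4 : ball z0 (r / 2) ×ˢ ball (star z0) (r / 2) ∈ 𝓝 (z0, star z0) :=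
      prod_mem_nhds (ball_mem_nhds _ (by positivity)) (ball_mem_nhds _ (by positivity))
    filter_upwards [h4] with w hw
    obtain ⟨hw1, hw2⟩ := hw
    rw [mem_ball_iff_norm, pi_norm_lt_iff (by positivity)] at hw1 hw2
    set u : κ ⊕ κ → ℂ := Sum.elim (fun i => (w.1 i - z0 i + (w.2 i - star (z0 i))) / 2)
      (fun i => (w.1 i - z0 i - (w.2 i - star (z0 i))) / (2 * Complex.I)) with hu
    have h5 : Ψ u = w := by
      have hI : Complex.I ≠ 0 := Complex.I_ne_zero
      ext i
      · simp only [Ψ, hu, Sum.elim_inl, Sum.elim_inr]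
        field_simp
        ring
      · simp only [Ψ, hu, Sum.elim_inl, Sum.elim_inr]
        field_simp
        ring
    have h6 : u ∈ ball (0 : κ ⊕ κ → ℂ) (r / 2) := by
      rw [mem_ball_zero_iff, pi_norm_lt_iff (by positivity)]
      rintro (i | i)
      · simp only [hu, Sum.elim_inl]
        have h7 := hw1 i
        have h8 := hw2 i
        simp only [Pi.sub_apply, Pi.star_apply] at h7 h8
        rw [norm_div, Complex.norm_ofNat, div_lt_iff₀ two_pos]
        calc _ ≤ _ := norm_add_le _ _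
          _ < r / 2 * 2 := by linarith
      · simp only [hu, Sum.elim_inr]
        have h7 := hw1 i
        have h8 := hw2 i
        simp only [Pi.sub_apply, Pi.star_apply] at h7 h8
        rw [norm_div, norm_mul, Complex.norm_ofNat, Complex.norm_I, mul_one, div_lt_iff₀ two_pos]
        calc _ ≤ _ := norm_sub_le _ _
          _ < r / 2 * 2 := by linarith
    have h9 := h1 u h6
    rw [h5] at h9
    exact h9
  have h10 : (z0, star z0) ∈ ball z0 r ×ˢ ball (star z0) r :=
    ⟨mem_ball_self hr, mem_ball_self hr⟩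
  exact hF.eqOn_zero_of_preconnected_of_eventuallyEq_zero
    ((convex_ball _ _).prod (convex_ball _ _)).isPreconnected h10 h3 hw

end Pool.Agent.T2H76.HR
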