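import Mathlib

/-!
# Separating points for spaces of analytic functions with small restrictions to coordinate lines
-/

set_option autoImplicit false

open Filter Topology Set Metric

namespace Pool.Agent.T2H76.HR

/-- bordered minors -/
theorem bordered {X Y : Type*} (M : X → Y → ℂ) {m : ℕ} (x : Fin m → X) (y : Fin m → Y)
    (hdet : (Matrix.of fun i j => M (x i) (y j)).det ≠ 0) (x' : X)
    (hb : ∀ y' : Y, (Matrix.of fun i j : Fin (m + 1) =>
      M (Fin.snoc (α := fun _ => X) x x' i) (Fin.snoc (α := fun _ => Y) y y' j)).det = 0) :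
    ∃ h : Fin m → ℂ, ∀ y' : Y, M x' y' = ∑ a, h a * M (x a) y' := by
  -- relation for each `y'`
  have key : ∀ y' : Y, ∃ h : Fin m → ℂ, (∀ j, M x' (y j) = ∑ a, h a * M (x a) (y j)) ∧
      M x' y' = ∑ a, h a * M (x a) y' := by
    intro y'
    obtain ⟨c, hc0, hc⟩ := Matrix.exists_vecMul_eq_zero_iff.2 (hb y')
    have h1 : ∀ j, (∑ a, c (Fin.castSucc a) * M (x a) (y j)) + c (Fin.last m) * M x' (y j) = 0 := by
      intro j
      have := congrFun hc (Fin.castSucc j)
      simpa [Matrix.vecMul, dotProduct, Fin.sum_univ_castSucc] using this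
    have h2 : (∑ a, c (Fin.castSucc a) * M (x a) y') + c (Fin.last m) * M x' y' = 0 := by
      have := congrFun hc (Fin.last m)
      simpa [Matrix.vecMul, dotProduct, Fin.sum_univ_castSucc] using this
    have hl : c (Fin.last m) ≠ 0 := by
      intro hl
      apply hc0
      have h3 : (fun a => c (Fin.castSucc a)) = 0 := by
        apply Matrix.eq_zero_of_vecMul_eq_zero hdet
        funext j
        have := h1 j
        rw [hl, zero_mul, add_zero] at this
        simpa [Matrix.vecMul, dotProduct] using this
      funext i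
      refine Fin.lastCases ?_ (fun a => ?_) i
      · exact hl
      · exact congrFun h3 a
    refine ⟨fun a => -(c (Fin.castSucc a) / c (Fin.last m)), fun j => ?_, ?_⟩
    · have h3 := h1 j
      have h4 : M x' (y j) = -(∑ a, c (Fin.castSucc a) * M (x a) (y j)) / c (Fin.last m) := by
        field_simp
        linear_combination h3
      rw [h4, neg_div, Finset.sum_div, ← Finset.sum_neg_distrib]
      exact Finset.sum_congr rfl fun a _ => by ring
    · have h4 : M x' y' = -(∑ a, c (Fin.castSucc a) * M (x a) y') / c (Fin.last m) := by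
        field_simp
        linear_combination h2
      rw [h4, neg_div, Finset.sum_div, ← Finset.sum_neg_distrib]
      exact Finset.sum_congr rfl fun a _ => by ring
  rcases isEmpty_or_nonempty Y with hY | ⟨⟨y0⟩⟩
  · exact ⟨0, fun y' => (hY.false y').elim⟩
  obtain ⟨h, hh, -⟩ := key y0
  refine ⟨h, fun y' => ?_⟩
  obtain ⟨h', hh', h'y⟩ := key y'
  have : h' = h := by
    rw [← sub_eq_zero]
    apply Matrix.eq_zero_of_vecMul_eq_zero hdet
    funext j
    have h3 := hh j
    have h4 := hh' j
    simp only [Matrix.vecMul, dotProduct, Matrix.of_apply, Pi.sub_apply, sub_mul,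
      Finset.sum_sub_distrib, Pi.zero_apply]
    rw [← h3, ← h4, sub_self]
  rw [h'y, this]

variable {κ : Type*} [Fintype κ] [DecidableEq κ]

theorem update_mem_ball {r : ℝ} {z : κ → ℂ} (hz : z ∈ ball (0 : κ → ℂ) r) (i : κ) {t : ℂ}
    (ht : t ∈ ball (0 : ℂ) r) : Function.update z i t ∈ ball (0 : κ → ℂ) r := by
  have hr : 0 < r := lt_of_le_of_lt (norm_nonneg z) (by simpa using hz)
  rw [mem_ball_zero_iff, pi_norm_lt_iff hr] at hz ⊢
  intro j
  by_cases hj : j = i
  · subst hj
    simpa using ht
  · rw [Function.update_of_ne hj]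
    exact hz j

theorem analytic_of_span {Y : Type*} {U : Set (κ → ℂ)} {K : (κ → ℂ) → Y → ℂ}
    (hK : ∀ y, AnalyticOnNhd ℂ (fun z => K z y) U) {f : (κ → ℂ) → ℂ}
    (hf : f ∈ Submodule.span ℂ (range fun y => fun z => K z y)) : AnalyticOnNhd ℂ f U := by
  induction hf using Submodule.span_induction with
  | mem f h =>
    obtain ⟨y, rfl⟩ := h
    exact hK y
  | zero => exact analyticOnNhd_const
  | add f g _ _ h1 h2 => exact h1.add h2
  | smul c f _ h => exact (analyticOnNhd_const (v := c)).smul h

theorem relation_of_span {X Y : Type*} {K : X → Y → ℂ} {m : ℕ} {x : Fin m → X} {x' : X}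
    {h : Fin m → ℂ} (hh : ∀ y, K x' y = ∑ a, h a * K (x a) y) {f : X → ℂ}
    (hf : f ∈ Submodule.span ℂ (range fun y => fun z => K z y)) :
    f x' = ∑ a, h a * f (x a) := by
  induction hf using Submodule.span_induction with
  | mem f h =>
    obtain ⟨y, rfl⟩ := h
    exact hh y
  | zero => simp
  | add f g _ _ h1 h2 =>
    simp only [Pi.add_apply, mul_add, Finset.sum_add_distrib]
    rw [h1, h2]
  | smul c f _ h1 =>
    simp only [Pi.smul_apply, smul_eq_mul]
    rw [h1, Finset.mul_sum]
    exact Finset.sum_congr rfl fun a _ => by ring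

theorem separate {Y : Type*} {r : ℝ} (hr : 0 < r) (K : (κ → ℂ) → Y → ℂ)
    (hK : ∀ y, AnalyticOnNhd ℂ (fun z => K z y) (ball 0 r)) (k : ℕ)
    (hk : ∀ i : κ, ∀ z ∈ ball (0 : κ → ℂ) r, ∀ τ : Fin (k + 1) → ℂ, (∀ a, τ a ∈ ball (0 : ℂ) r) →
      ∀ y : Fin (k + 1) → Y,
        (Matrix.of fun a b => K (Function.update z i (τ a)) (y b)).det = 0) :
    ∃ F : Finset (κ → ℂ), F.card ≤ k ^ (Fintype.card κ) ∧ (∀ x ∈ F, x ∈ ball (0 : κ → ℂ) r) ∧
      ∀ f ∈ Submodule.span ℂ (range fun y => fun z => K z y), (∀ x ∈ F, f x = 0) →
        ∀ z ∈ ball (0 : κ → ℂ) r, f z = 0 := by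
  classical
  have key : ∀ S : Finset κ, ∀ c ∈ ball (0 : κ → ℂ) r, ∃ F : Finset (κ → ℂ),
      F.card ≤ k ^ S.card ∧ (∀ x ∈ F, x ∈ ball (0 : κ → ℂ) r) ∧
      ∀ f ∈ Submodule.span ℂ (range fun y => fun z => K z y), (∀ x ∈ F, f x = 0) →
        ∀ z ∈ ball (0 : κ → ℂ) r, (∀ i ∉ S, z i = c i) → f z = 0 := by
    intro S
    induction S using Finset.induction_on with
    | empty =>
      intro c hc
      refine ⟨{c}, by simp, by simpa using hc, fun f _ hf0 z _ hz => ?_⟩
      have : z = c := funext fun i => hz i (Finset.notMem_empty i)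
      rw [this]
      exact hf0 c (Finset.mem_singleton_self c)
    | insert i S hi ih =>
      intro c hc
      -- maximal minors
      obtain ⟨m, hmk, ⟨z₀, hz₀, hz₀c, τ, hτ, y, hdet⟩, hmax⟩ : ∃ m : ℕ, m ≤ k ∧
          (∃ z ∈ ball (0 : κ → ℂ) r, (∀ j ∉ insert i S, z j = c j) ∧ ∃ τ : Fin m → ℂ,
            (∀ a, τ a ∈ ball (0 : ℂ) r) ∧ ∃ y : Fin m → Y,
            (Matrix.of fun a b => K (Function.update z i (τ a)) (y b)).det ≠ 0) ∧
          ¬ (∃ z ∈ ball (0 : κ → ℂ) r, (∀ j ∉ insert i S, z j = c j) ∧ ∃ τ : Fin (m + 1) → ℂ,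
            (∀ a, τ a ∈ ball (0 : ℂ) r) ∧ ∃ y : Fin (m + 1) → Y,
            (Matrix.of fun a b => K (Function.update z i (τ a)) (y b)).det ≠ 0) := by
        by_contra hcon
        push Not at hcon
        have h1 : ∀ m : ℕ, m ≤ k + 1 → ∃ z ∈ ball (0 : κ → ℂ) r, (∀ j ∉ insert i S, z j = c j) ∧
            ∃ τ : Fin m → ℂ, (∀ a, τ a ∈ ball (0 : ℂ) r) ∧ ∃ y : Fin m → Y,
            (Matrix.of fun a b => K (Function.update z i (τ a)) (y b)).det ≠ 0 := by
          intro m
          induction m with
          | zero =>
            intro _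
            exact ⟨c, hc, fun _ _ => rfl, Fin.elim0, fun a => a.elim0, Fin.elim0, by simp⟩
          | succ m ihm =>
            intro hm
            obtain ⟨z, h1, h2, τ, h3, y, h4⟩ := ihm (by omega)
            exact hcon m (by omega) ⟨z, h1, h2, τ, h3, y, h4⟩
        obtain ⟨z, h2, -, τ, h3, y, h4⟩ := h1 (k + 1) le_rfl
        exact h4 (hk i z h2 τ h3 y)
      have hci : ∀ a, Function.update c i (τ a) ∈ ball (0 : κ → ℂ) r := fun a =>
        update_mem_ball hc i (hτ a)
      choose G hG1 hG2 hG3 using fun a => ih (Function.update c i (τ a)) (hci a)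
      refine ⟨Finset.univ.biUnion G, ?_, ?_, ?_⟩
      · refine Finset.card_biUnion_le.trans ?_
        refine (Finset.sum_le_sum fun a _ => hG1 a).trans ?_
        rw [Finset.sum_const, Finset.card_univ, Fintype.card_fin, smul_eq_mul,
          Finset.card_insert_of_notMem hi, pow_succ, mul_comm]
        exact Nat.mul_le_mul_left _ hmk
      · intro x hx
        rw [Finset.mem_biUnion] at hx
        obtain ⟨a, -, hx⟩ := hx
        exact hG2 a x hx
      · intro f hf hf0
        have hfan := analytic_of_span hK hf
        have h1 : ∀ a, ∀ z ∈ ball (0 : κ → ℂ) r, (∀ j ∉ insert i S, z j = c j) →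
            f (Function.update z i (τ a)) = 0 := by
          intro a z hz hzc
          refine hG3 a f hf (fun x hx => hf0 x ?_) _ (update_mem_ball hz i (hτ a)) ?_
          · rw [Finset.mem_biUnion]
            exact ⟨a, Finset.mem_univ a, hx⟩
          · intro j hj
            by_cases hji : j = i
            · subst hji
              simp
            · rw [Function.update_of_ne hji, Function.update_of_ne hji]
              exact hzc j (by simp [hji, hj])
        -- the determinant does not vanish near `z₀`
        have hcont : ContinuousAt (fun z => (Matrix.of fun a b =>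
            K (Function.update z i (τ a)) (y b)).det) z₀ := by
          have h2 : ∀ a b, ContinuousAt (fun z => K (Function.update z i (τ a)) (y b)) z₀ := by
            intro a b
            have h3 : ContinuousAt (fun z => K z (y b)) (Function.update z₀ i (τ a)) :=
              (hK (y b) _ (update_mem_ball hz₀ i (hτ a))).continuousAt
            have h4 : ContinuousAt (fun z : κ → ℂ => Function.update z i (τ a)) z₀ := by
              fun_prop
            exact ContinuousAt.comp (f := fun z : κ → ℂ => Function.update z i (τ a))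
              (g := fun z => K z (y b)) h3 h4
          simp only [Matrix.det_apply]
          have h5 : ∀ σ : Equiv.Perm (Fin m), ContinuousAt (fun z => Equiv.Perm.sign σ •
              ∏ a, (Matrix.of fun a b => K (Function.update z i (τ a)) (y b)) (σ a) a) z₀ := by
            intro σ
            refine ContinuousAt.const_smul ?_ _
            refine tendsto_finsetProd _ fun a _ => ?_
            exact h2 (σ a) a
          exact tendsto_finsetSum _ fun σ _ => h5 σ
        have hev : ∀ᶠ z in 𝓝 z₀, (Matrix.of fun a b =>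
            K (Function.update z i (τ a)) (y b)).det ≠ 0 := hcont.eventually_ne hdet
        have hev2 : ∀ᶠ z in 𝓝 z₀, z ∈ ball (0 : κ → ℂ) r := isOpen_ball.mem_nhds hz₀
        -- the projection to the slice
        let π : (κ → ℂ) → (κ → ℂ) := fun z j => if j ∈ insert i S then z j else c j
        have hπan : ∀ z, AnalyticAt ℂ π z := by
          intro z
          rw [analyticAt_pi_iff]
          intro j
          by_cases hj : j ∈ insert i S
          · simp only [π, if_pos hj]
            exact (ContinuousLinearMap.proj (R := ℂ) (φ := fun _ : κ => ℂ) j).analyticAt z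
          · simp only [π, if_neg hj]
            exact analyticAt_const
        have hπball : ∀ z ∈ ball (0 : κ → ℂ) r, π z ∈ ball (0 : κ → ℂ) r := by
          intro z hz
          rw [mem_ball_zero_iff, pi_norm_lt_iff hr] at hz hc ⊢
          intro j
          simp only [π]
          split_ifs
          · exact hz j
          · exact hc j
        have hπslice : ∀ z, ∀ j ∉ insert i S, π z j = c j := by
          intro z j hj
          simp only [π, if_neg hj]
        have hπfix : ∀ z, (∀ j ∉ insert i S, z j = c j) → π z = z := by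
          intro z hz
          funext j
          by_cases hj : j ∈ insert i S
          · simp only [π, if_pos hj]
          · simp only [π, if_neg hj]
            exact (hz j hj).symm
        have hzero : ∀ᶠ z in 𝓝 z₀, f (π z) = 0 := by
          have hπc : Tendsto π (𝓝 z₀) (𝓝 z₀) := by
            have := (hπan z₀).continuousAt
            rw [ContinuousAt, hπfix z₀ hz₀c] at this
            exact this
          filter_upwards [hπc.eventually hev, hπc.eventually hev2] with z h2 h3
          set w := π z with hw
          have hws : ∀ j ∉ insert i S, w j = c j := hπslice z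
          have hwi : w i ∈ ball (0 : ℂ) r := by
            rw [mem_ball_zero_iff, pi_norm_lt_iff hr] at h3
            simpa using h3 i
          obtain ⟨h, hh⟩ := bordered (fun (t : {t : ℂ // t ∈ ball (0 : ℂ) r}) (y' : Y) =>
            K (Function.update w i t.1) y') (fun a => ⟨τ a, hτ a⟩) y h2 ⟨w i, hwi⟩ (by
              intro y'
              by_contra hne
              refine hmax ⟨w, h3, hws, fun a => (Fin.snoc (α := fun _ =>
                {t : ℂ // t ∈ ball (0 : ℂ) r}) (fun a => ⟨τ a, hτ a⟩) ⟨w i, hwi⟩ a).1,
                fun a => (Fin.snoc (α := fun _ => {t : ℂ // t ∈ ball (0 : ℂ) r})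
                  (fun a => ⟨τ a, hτ a⟩) ⟨w i, hwi⟩ a).2, Fin.snoc (α := fun _ => Y) y y', hne⟩)
          have h4 : ∀ y', K w y' = ∑ a, h a * K (Function.update w i (τ a)) y' := by
            intro y'
            have := hh y'
            simpa using this
          have h5 := relation_of_span h4 hf
          rw [h5]
          refine Finset.sum_eq_zero fun a _ => ?_
          rw [h1 a w h3 hws, mul_zero]
        have hall : ∀ z ∈ ball (0 : κ → ℂ) r, f (π z) = 0 := by
          intro z hz
          have han : AnalyticOnNhd ℂ (fun z => f (π z)) (ball 0 r) := fun z hz =>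
            (hfan _ (hπball z hz)).fun_comp (hπan z)
          exact han.eqOn_zero_of_preconnected_of_eventuallyEq_zero
            (convex_ball 0 r).isPreconnected hz₀ hzero hz
        intro z hz hzs
        have := hall z hz
        rwa [hπfix z hzs] at this
  obtain ⟨F, h1, h2, h3⟩ := key Finset.univ 0 (mem_ball_self hr)
  refine ⟨F, h1, h2, fun f hf hf0 z hz => h3 f hf hf0 z hz fun i hi => ?_⟩
  exact absurd (Finset.mem_univ i) hi

end Pool.Agent.T2H76.HR
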