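import Mathlib
import Pool.Agent.T2H76.HR.C
import Pool.Agent.T2H76.HR.D

/-!
# The local rank bound
-/

set_option autoImplicit false

open Filter Topology Set Metric

namespace Pool.Agent.T2H76.HR

/-- a matrix which factors through a smaller dimension is singular -/
theorem det_zero_of_factor {m : ℕ} {σ : Type*} [Fintype σ] (h : Fintype.card σ < m)
    (H : Fin m → σ → ℂ) (G : σ → Fin m → ℂ) :
    (Matrix.of fun a b => ∑ s, H a s * G s b).det = 0 := by
  classical
  let f : (Fin m → ℂ) →ₗ[ℂ] (σ → ℂ) := Matrix.vecMulLinear (Matrix.of H)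
  have h1 : LinearMap.ker f ≠ ⊥ := by
    apply LinearMap.ker_ne_bot_of_finrank_lt
    rw [Module.finrank_fintype_fun_eq_card, Module.finrank_fintype_fun_eq_card, Fintype.card_fin]
    exact h
  obtain ⟨c, hc, hc0⟩ := (Submodule.ne_bot_iff _).1 h1
  have h2 : Matrix.vecMul c (Matrix.of H) = 0 := by
    have := LinearMap.mem_ker.1 hc
    simpa [f] using this
  apply Matrix.exists_vecMul_eq_zero_iff.1
  refine ⟨c, hc0, ?_⟩
  have h3 : (Matrix.of fun a b => ∑ s, H a s * G s b) = Matrix.of H * Matrix.of G := by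
    ext a b
    simp [Matrix.mul_apply]
  rw [h3, ← Matrix.vecMul_vecMul, h2, Matrix.zero_vecMul]

/-- separating points give a factorization -/
theorem factor_of_sep {X Y : Type*} (K : X → Y → ℂ) (F : Finset X) (U : Set X)
    (h : ∀ f ∈ Submodule.span ℂ (range fun y => fun z => K z y), (∀ x ∈ F, f x = 0) →
        ∀ z ∈ U, f z = 0) {z : X} (hz : z ∈ U) :
    ∃ c : F → ℂ, ∀ y, K z y = ∑ x : F, c x * K x y := by
  let V := Submodule.span ℂ (range fun y => fun z => K z y)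
  let ev : X → (V →ₗ[ℂ] ℂ) := fun x => (LinearMap.proj x).comp V.subtype
  have hev : ∀ x (f : V), ev x f = (f : X → ℂ) x := fun x f => rfl
  have h1 : ⨅ x : F, LinearMap.ker (ev x) ≤ LinearMap.ker (ev z) := by
    intro f hf
    rw [Submodule.mem_iInf] at hf
    rw [LinearMap.mem_ker, hev]
    refine h f f.2 (fun x hx => ?_) z hz
    have := hf ⟨x, hx⟩
    rwa [LinearMap.mem_ker, hev] at this
  have h2 := mem_span_of_iInf_ker_le_ker h1
  rw [Submodule.mem_span_range_iff_exists_fun] at h2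
  obtain ⟨c, hc⟩ := h2
  refine ⟨c, fun y => ?_⟩
  have h3 := LinearMap.congr_fun hc ⟨fun z => K z y, Submodule.subset_span ⟨y, rfl⟩⟩
  simp only [LinearMap.sum_apply, LinearMap.smul_apply, hev, smul_eq_mul] at h3
  exact h3.symm

theorem minors_of_sep {X Y : Type*} (K : X → Y → ℂ) (F : Finset X) (U : Set X)
    (h : ∀ f ∈ Submodule.span ℂ (range fun y => fun z => K z y), (∀ x ∈ F, f x = 0) →
        ∀ z ∈ U, f z = 0) {m : ℕ} (hm : F.card < m) (z : Fin m → X) (hz : ∀ a, z a ∈ U)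
    (y : Fin m → Y) : (Matrix.of fun a b => K (z a) (y b)).det = 0 := by
  choose c hc using fun a => factor_of_sep K F U h (hz a)
  have h1 : (Matrix.of fun a b => K (z a) (y b)) =
      Matrix.of fun a b => ∑ x : F, c a x * K x (y b) := by
    ext a b
    simp only [Matrix.of_apply]
    rw [hc a (y b)]
  rw [h1]
  exact det_zero_of_factor (by simpa using hm) c fun x b => K x (y b)

variable {κ : Type*} [Fintype κ]

/-- the polarized identity along a complex line -/
theorem line_polar {r : ℝ} {p : (κ → ℂ) → ℝ} {P : (κ → ℂ) → (κ → ℂ) → ℂ}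
    (hP : AnalyticOnNhd ℂ (fun w : (κ → ℂ) × (κ → ℂ) => P w.1 w.2) (ball 0 r ×ˢ ball 0 r))
    (hPp : ∀ z ∈ ball (0 : κ → ℂ) r, P z (star z) = p z) {k : ℕ} {a b : κ → ℂ}
    (ha : a ∈ ball (0 : κ → ℂ) (r / 2)) (hb : b ∈ ball (0 : κ → ℂ) (r / 2))
    {ε : Fin k → ℝ} {g : Fin k → ℂ → ℂ} (hg : ∀ j, Differentiable ℂ (g j))
    (hpg : ∀ t : ℂ, p (a + t • b) = ∑ j, ε j * Complex.normSq (g j t)) {t s : ℂ}
    (ht : t ∈ ball (0 : ℂ) 1) (hs : s ∈ ball (0 : ℂ) 1) :
    P (a + t • b) (star a + s • star b) =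
      ∑ j, (ε j : ℂ) * g j t * (starRingEnd ℂ) (g j ((starRingEnd ℂ) s)) := by
  have hball : ∀ {a b : κ → ℂ}, a ∈ ball (0 : κ → ℂ) (r / 2) → b ∈ ball (0 : κ → ℂ) (r / 2) →
      ∀ {t : ℂ}, t ∈ ball (0 : ℂ) 1 → a + t • b ∈ ball (0 : κ → ℂ) r := by
    intro a b ha hb t ht
    rw [mem_ball_zero_iff] at *
    calc ‖a + t • b‖ ≤ ‖a‖ + ‖t • b‖ := norm_add_le _ _
      _ = ‖a‖ + ‖t‖ * ‖b‖ := by rw [norm_smul]
      _ ≤ ‖a‖ + 1 * ‖b‖ := by gcongr
      _ < r := by linarith
  have hsa : star a ∈ ball (0 : κ → ℂ) (r / 2) := by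
    rw [mem_ball_zero_iff] at *
    rwa [norm_star]
  have hsb : star b ∈ ball (0 : κ → ℂ) (r / 2) := by
    rw [mem_ball_zero_iff] at *
    rwa [norm_star]
  let F : (Unit → ℂ) × (Unit → ℂ) → ℂ := fun w =>
    P (a + w.1 () • b) (star a + w.2 () • star b) -
      ∑ j, (ε j : ℂ) * g j (w.1 ()) * (starRingEnd ℂ) (g j ((starRingEnd ℂ) (w.2 ())))
  have hmem : ∀ w : (Unit → ℂ) × (Unit → ℂ), w ∈ ball (0 : Unit → ℂ) 1 ×ˢ ball (star 0) 1 →
      w.1 () ∈ ball (0 : ℂ) 1 ∧ w.2 () ∈ ball (0 : ℂ) 1 := by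
    rintro w ⟨h1, h2⟩
    rw [star_zero] at h2
    rw [mem_ball_zero_iff, pi_norm_lt_iff one_pos] at h1 h2
    exact ⟨by simpa using h1 (), by simpa using h2 ()⟩
  have hF : AnalyticOnNhd ℂ F (ball (0 : Unit → ℂ) 1 ×ˢ ball (star 0) 1) := by
    intro w hw
    obtain ⟨h1, h2⟩ := hmem w hw
    have c1 := analyticAt_coord_fst () w
    have c2 := analyticAt_coord_snd () w
    refine AnalyticAt.sub ?_ ?_
    · have h3 : AnalyticAt ℂ (fun w : (Unit → ℂ) × (Unit → ℂ) =>
          (a + w.1 () • b, star a + w.2 () • star b)) w :=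
        AnalyticAt.prod (analyticAt_const.add (c1.smul analyticAt_const))
          (analyticAt_const.add (c2.smul analyticAt_const))
      exact AnalyticAt.fun_comp (g := fun w : (κ → ℂ) × (κ → ℂ) => P w.1 w.2)
        (f := fun w : (Unit → ℂ) × (Unit → ℂ) => (a + w.1 () • b, star a + w.2 () • star b))
        (hP _ ⟨hball ha hb h1, hball hsa hsb h2⟩) h3
    · refine Finset.analyticAt_fun_sum _ fun j _ => ?_
      refine (analyticAt_const.mul ?_).mul ?_
      · exact ((hg j).analyticAt _).fun_comp c1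
      · have h4 : Differentiable ℂ (fun s : ℂ => (starRingEnd ℂ) (g j ((starRingEnd ℂ) s))) := by
          intro s
          have := (hg j ((starRingEnd ℂ) s)).conj_conj
          rw [Complex.conj_conj] at this
          exact this
        exact (h4.analyticAt _).fun_comp c2
  have h0 : ∀ z ∈ ball (0 : Unit → ℂ) 1, F (z, star z) = 0 := by
    intro z hz
    rw [mem_ball_zero_iff, pi_norm_lt_iff one_pos] at hz
    have h1 : z () ∈ ball (0 : ℂ) 1 := by simpa using hz ()
    have h2 := hPp _ (hball ha hb h1)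
    have h3 : star (a + z () • b) = star a + star (z ()) • star b := by
      rw [star_add, star_smul]
    simp only [F, Pi.star_apply]
    rw [← h3, h2, hpg]
    push_cast
    rw [sub_eq_zero]
    refine Finset.sum_congr rfl fun j _ => ?_
    rw [← starRingEnd_apply, Complex.conj_conj, mul_assoc, Complex.mul_conj]
  have h1 := polar_unique (0 : Unit → ℂ) hF h0 (fun _ => t, fun _ => s) ⟨by
      rw [mem_ball_zero_iff, pi_norm_lt_iff one_pos]
      intro _
      simpa using ht, by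
      rw [star_zero, mem_ball_zero_iff, pi_norm_lt_iff one_pos]
      intro _
      simpa using hs⟩
  exact sub_eq_zero.1 h1

/-- all minors of size `k + 1` of `P` on (coordinate line) × (coordinate line) vanish -/
theorem line_minors [DecidableEq κ] {r : ℝ} (hr : 0 < r) {p : (κ → ℂ) → ℝ}
    {P : (κ → ℂ) → (κ → ℂ) → ℂ}
    (hP : AnalyticOnNhd ℂ (fun w : (κ → ℂ) × (κ → ℂ) => P w.1 w.2) (ball 0 r ×ˢ ball 0 r))
    (hPp : ∀ z ∈ ball (0 : κ → ℂ) r, P z (star z) = p z) {k : ℕ}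
    (hline : ∀ a b : κ → ℂ, ∃ (ε : Fin k → ℝ) (g : Fin k → ℂ → ℂ),
      (∀ j, Differentiable ℂ (g j)) ∧ ∀ t : ℂ, p (a + t • b) = ∑ j, ε j * Complex.normSq (g j t))
    (i i' : κ) {z v : κ → ℂ} (hz : z ∈ ball (0 : κ → ℂ) (r / 4)) (hv : v ∈ ball (0 : κ → ℂ) (r / 4))
    (τ σ : Fin (k + 1) → ℂ) (hτ : ∀ a, τ a ∈ ball (0 : ℂ) (r / 4))
    (hσ : ∀ a, σ a ∈ ball (0 : ℂ) (r / 4)) :
    (Matrix.of fun a b => P (Function.update z i (τ a)) (Function.update v i' (σ b))).det = 0 := by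
  -- the statement for all lines
  have key : ∀ t s : Fin (k + 1) → ℂ, (∀ a, t a ∈ ball (0 : ℂ) 1) → (∀ a, s a ∈ ball (0 : ℂ) 1) →
      ∀ w ∈ (ball (0 : κ ⊕ κ → ℂ) (r / 2) ×ˢ ball (star 0) (r / 2) :
        Set ((κ ⊕ κ → ℂ) × (κ ⊕ κ → ℂ))),
      (Matrix.of fun i j => P ((fun c => w.1 (Sum.inl c)) + t i • (fun c => w.1 (Sum.inr c)))
        ((fun c => w.2 (Sum.inl c)) + s j • (fun c => w.2 (Sum.inr c)))).det = 0 := by
    intro t s ht hs
    have hsplit : ∀ {A : κ ⊕ κ → ℂ}, A ∈ ball (0 : κ ⊕ κ → ℂ) (r / 2) →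
        (fun c => A (Sum.inl c)) ∈ ball (0 : κ → ℂ) (r / 2) ∧
        (fun c => A (Sum.inr c)) ∈ ball (0 : κ → ℂ) (r / 2) := by
      intro A hA
      rw [mem_ball_zero_iff, pi_norm_lt_iff (by positivity)] at hA
      constructor <;> rw [mem_ball_zero_iff, pi_norm_lt_iff (by positivity)]
      · exact fun c => hA _
      · exact fun c => hA _
    have hball : ∀ {A : κ ⊕ κ → ℂ}, A ∈ ball (0 : κ ⊕ κ → ℂ) (r / 2) → ∀ {t : ℂ},
        t ∈ ball (0 : ℂ) 1 →
        (fun c => A (Sum.inl c)) + t • (fun c => A (Sum.inr c)) ∈ ball (0 : κ → ℂ) r := by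
      intro A hA t ht
      obtain ⟨h1, h2⟩ := hsplit hA
      rw [mem_ball_zero_iff] at *
      calc ‖(fun c => A (Sum.inl c)) + t • (fun c => A (Sum.inr c))‖
          ≤ ‖(fun c => A (Sum.inl c))‖ + ‖t • (fun c => A (Sum.inr c))‖ := norm_add_le _ _
        _ = ‖(fun c => A (Sum.inl c))‖ + ‖t‖ * ‖(fun c => A (Sum.inr c))‖ := by rw [norm_smul]
        _ ≤ ‖(fun c => A (Sum.inl c))‖ + 1 * ‖(fun c => A (Sum.inr c))‖ := by gcongr
        _ < r := by linarith
    refine polar_unique (0 : κ ⊕ κ → ℂ) ?_ ?_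
    · intro w hw
      obtain ⟨hw1, hw2⟩ := hw
      rw [star_zero] at hw2
      simp only [Matrix.det_apply, zsmul_eq_mul, Units.smul_def]
      refine Finset.analyticAt_fun_sum _ fun π _ => ?_
      refine analyticAt_const.mul ?_
      refine Finset.analyticAt_fun_prod _ fun a _ => ?_
      simp only [Matrix.of_apply]
      have c1 : ∀ j, AnalyticAt ℂ (fun w : (κ ⊕ κ → ℂ) × (κ ⊕ κ → ℂ) => w.1 j) w :=
        fun j => analyticAt_coord_fst j w
      have c2 : ∀ j, AnalyticAt ℂ (fun w : (κ ⊕ κ → ℂ) × (κ ⊕ κ → ℂ) => w.2 j) w :=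
        fun j => analyticAt_coord_snd j w
      have h3 : AnalyticAt ℂ (fun w : (κ ⊕ κ → ℂ) × (κ ⊕ κ → ℂ) =>
          (((fun c => w.1 (Sum.inl c)) + t (π a) • (fun c => w.1 (Sum.inr c)),
           (fun c => w.2 (Sum.inl c)) + s a • (fun c => w.2 (Sum.inr c))) :
            (κ → ℂ) × (κ → ℂ))) w := by
        refine AnalyticAt.prod ?_ ?_
        · rw [analyticAt_pi_iff]
          intro c
          exact (c1 _).add (analyticAt_const.mul (c1 _))
        · rw [analyticAt_pi_iff]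
          intro c
          exact (c2 _).add (analyticAt_const.mul (c2 _))
      exact AnalyticAt.fun_comp (g := fun w : (κ → ℂ) × (κ → ℂ) => P w.1 w.2)
        (f := fun w : (κ ⊕ κ → ℂ) × (κ ⊕ κ → ℂ) =>
          (((fun c => w.1 (Sum.inl c)) + t (π a) • (fun c => w.1 (Sum.inr c)),
           (fun c => w.2 (Sum.inl c)) + s a • (fun c => w.2 (Sum.inr c))) :
            (κ → ℂ) × (κ → ℂ)))
        (hP _ ⟨hball hw1 (ht _), hball hw2 (hs _)⟩) h3
    · intro A hA
      obtain ⟨h1, h2⟩ := hsplit hA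
      obtain ⟨ε, g, hg, hpg⟩ := hline (fun c => A (Sum.inl c)) (fun c => A (Sum.inr c))
      have h3 : ∀ i j : Fin (k + 1), P ((fun c => A (Sum.inl c)) + t i • (fun c => A (Sum.inr c)))
          ((fun c => (star A) (Sum.inl c)) + s j • (fun c => (star A) (Sum.inr c))) =
          ∑ l, ((ε l : ℂ) * g l (t i)) * (starRingEnd ℂ) (g l ((starRingEnd ℂ) (s j))) := by
        intro i j
        exact line_polar hP hPp h1 h2 hg hpg (ht i) (hs j)
      simp only [h3]
      exact det_zero_of_factor (by simp) (fun i l => (ε l : ℂ) * g l (t i))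
        (fun l j => (starRingEnd ℂ) (g l ((starRingEnd ℂ) (s j))))
  have hr4 : (r / 4 : ℝ) ≠ 0 := by positivity
  have hc : ((r / 4 : ℝ) : ℂ) ≠ 0 := by exact_mod_cast hr4
  have hupd : ∀ (z : κ → ℂ) (i : κ) (t : ℂ), Function.update z i t =
      Function.update z i 0 + (t / ((r / 4 : ℝ) : ℂ)) • (Pi.single i ((r / 4 : ℝ) : ℂ) : κ → ℂ) := by
    intro z i t
    funext j
    by_cases hj : j = i
    · subst hj
      simp only [Function.update_self, Pi.add_apply, Pi.smul_apply, Pi.single_eq_same, smul_eq_mul]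
      field_simp
      ring
    · simp [Function.update_of_ne hj, Pi.single_eq_of_ne hj]
  have hmem : ∀ (z : κ → ℂ) (i : κ), z ∈ ball (0 : κ → ℂ) (r / 4) →
      Sum.elim (Function.update z i 0) (Pi.single i ((r / 4 : ℝ) : ℂ)) ∈
        ball (0 : κ ⊕ κ → ℂ) (r / 2) := by
    intro z i hz
    rw [mem_ball_zero_iff, pi_norm_lt_iff (by positivity)] at hz ⊢
    rintro (j | j)
    · simp only [Sum.elim_inl]
      by_cases hj : j = i
      · subst hj
        simp [hr]
      · rw [Function.update_of_ne hj]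
        linarith [hz j]
    · simp only [Sum.elim_inr]
      by_cases hj : j = i
      · subst hj
        rw [Pi.single_eq_same, Complex.norm_real, Real.norm_of_nonneg (by positivity)]
        linarith
      · rw [Pi.single_eq_of_ne hj, norm_zero]
        positivity
  have hdiv : ∀ t : ℂ, t ∈ ball (0 : ℂ) (r / 4) → t / ((r / 4 : ℝ) : ℂ) ∈ ball (0 : ℂ) 1 := by
    intro t ht
    rw [mem_ball_zero_iff] at *
    rw [norm_div, Complex.norm_real, Real.norm_of_nonneg (by positivity),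
      div_lt_one (by positivity)]
    exact ht
  have := key (fun a => τ a / ((r / 4 : ℝ) : ℂ)) (fun a => σ a / ((r / 4 : ℝ) : ℂ))
    (fun a => hdiv _ (hτ a)) (fun a => hdiv _ (hσ a))
    (Sum.elim (Function.update z i 0) (Pi.single i ((r / 4 : ℝ) : ℂ)),
      Sum.elim (Function.update v i' 0) (Pi.single i' ((r / 4 : ℝ) : ℂ)))
    ⟨hmem z i hz, by rw [star_zero]; exact hmem v i' hv⟩
  simp only [Sum.elim_inl, Sum.elim_inr] at this
  have h4 : (Matrix.of fun a b => P (Function.update z i (τ a)) (Function.update v i' (σ b))) =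
      Matrix.of fun a b => P ((fun c => Function.update z i 0 c) + (τ a / ((r / 4 : ℝ) : ℂ)) •
        (fun c => (Pi.single i ((r / 4 : ℝ) : ℂ) : κ → ℂ) c))
        ((fun c => Function.update v i' 0 c) + (σ b / ((r / 4 : ℝ) : ℂ)) •
        (fun c => (Pi.single i' ((r / 4 : ℝ) : ℂ) : κ → ℂ) c)) := by
    ext a b
    simp only [Matrix.of_apply]
    rw [hupd z i (τ a), hupd v i' (σ b)]
  rw [h4]
  exact this

end Pool.Agent.T2H76.HR
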