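import Mathlib
import Pool.Agent.T2H76.HR.E

/-!
# Local representation as a signed sum of squares
-/

set_option autoImplicit false

open Filter Topology Set Metric

namespace Pool.Agent.T2H76.HR

variable {κ : Type*} [Fintype κ]

theorem local_rank [DecidableEq κ] {r : ℝ} (hr : 0 < r) {p : (κ → ℂ) → ℝ}
    {P : (κ → ℂ) → (κ → ℂ) → ℂ}
    (hP : AnalyticOnNhd ℂ (fun w : (κ → ℂ) × (κ → ℂ) => P w.1 w.2) (ball 0 r ×ˢ ball 0 r))
    (hPp : ∀ z ∈ ball (0 : κ → ℂ) r, P z (star z) = p z) {k : ℕ}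
    (hline : ∀ a b : κ → ℂ, ∃ (ε : Fin k → ℝ) (g : Fin k → ℂ → ℂ),
      (∀ j, Differentiable ℂ (g j)) ∧ ∀ t : ℂ, p (a + t • b) = ∑ j, ε j * Complex.normSq (g j t))
    {m : ℕ} (hm : (k ^ Fintype.card κ) ^ Fintype.card κ < m) (z v : Fin m → κ → ℂ)
    (hz : ∀ a, z a ∈ ball (0 : κ → ℂ) (r / 4)) (hv : ∀ a, v a ∈ ball (0 : κ → ℂ) (r / 4)) :
    (Matrix.of fun a b => P (z a) (v b)).det = 0 := by
  have hr4 : 0 < r / 4 := by positivity
  have hsub : ball (0 : κ → ℂ) (r / 4) ⊆ ball 0 r := ball_subset_ball (by linarith)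
  have han1 : ∀ z ∈ ball (0 : κ → ℂ) (r / 4),
      AnalyticOnNhd ℂ (fun v => P z v) (ball 0 (r / 4)) := by
    intro z hz v hv
    exact AnalyticAt.fun_comp (g := fun w : (κ → ℂ) × (κ → ℂ) => P w.1 w.2)
      (f := fun v : κ → ℂ => (z, v)) (hP _ ⟨hsub hz, hsub hv⟩)
      (analyticAt_const.prod analyticAt_id)
  have han2 : ∀ v ∈ ball (0 : κ → ℂ) (r / 4),
      AnalyticOnNhd ℂ (fun z => P z v) (ball 0 (r / 4)) := by
    intro v hv z hz
    exact AnalyticAt.fun_comp (g := fun w : (κ → ℂ) × (κ → ℂ) => P w.1 w.2)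
      (f := fun z : κ → ℂ => (z, v)) (hP _ ⟨hsub hz, hsub hv⟩)
      (analyticAt_id.prod analyticAt_const)
  have step1 : ∀ i : κ, ∀ z ∈ ball (0 : κ → ℂ) (r / 4),
      ∀ τ : Fin (k ^ Fintype.card κ + 1) → ℂ, (∀ a, τ a ∈ ball (0 : ℂ) (r / 4)) →
      ∀ y : Fin (k ^ Fintype.card κ + 1) → {v : κ → ℂ // v ∈ ball (0 : κ → ℂ) (r / 4)},
        (Matrix.of fun a b => P (Function.update z i (τ a)) (y b).1).det = 0 := by
    intro i z hz τ hτ y
    obtain ⟨F, hF1, hF2, hF3⟩ := separate hr4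
      (fun (v : κ → ℂ) (t : {t : ℂ // t ∈ ball (0 : ℂ) (r / 4)}) =>
        P (Function.update z i t.1) v)
      (fun t => han1 _ (update_mem_ball hz i t.2)) k (by
        intro i' v hv σ hσ y'
        rw [← Matrix.det_transpose]
        exact line_minors hr hP hPp hline i i' hz hv (fun a => (y' a).1) σ
          (fun a => (y' a).2) hσ)
    rw [← Matrix.det_transpose]
    exact minors_of_sep (fun (v : κ → ℂ) (t : {t : ℂ // t ∈ ball (0 : ℂ) (r / 4)}) =>
        P (Function.update z i t.1) v) F _ hF3 (by omega) (fun a => (y a).1)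
        (fun a => (y a).2) (fun a => ⟨τ a, hτ a⟩)
  obtain ⟨F, hF1, hF2, hF3⟩ := separate hr4
    (fun (z : κ → ℂ) (v : {v : κ → ℂ // v ∈ ball (0 : κ → ℂ) (r / 4)}) => P z v.1)
    (fun v => han2 _ v.2) (k ^ Fintype.card κ) step1
  exact minors_of_sep
    (fun (z : κ → ℂ) (v : {v : κ → ℂ // v ∈ ball (0 : κ → ℂ) (r / 4)}) => P z v.1) F _ hF3
    (by omega) z hz (fun a => ⟨v a, hv a⟩)

/-- signed sums of squares -/
def Rep (p : (κ → ℂ) → ℝ) (U : Set (κ → ℂ)) (m : ℕ) : Prop :=
  ∃ (ε : Fin m → ℝ) (f : Fin m → (κ → ℂ) → ℂ), (∀ j, ε j = 1 ∨ ε j = -1) ∧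
    (∀ j, AnalyticOnNhd ℂ (f j) U) ∧ ∀ z ∈ U, p z = ∑ j, ε j * Complex.normSq (f j z)

theorem herm_rep {σ : Type*} [Fintype σ] [DecidableEq σ] {U : Set (κ → ℂ)} {p : (κ → ℂ) → ℝ}
    (B : Matrix σ σ ℂ) (g : σ → (κ → ℂ) → ℂ) (hg : ∀ s, AnalyticOnNhd ℂ (g s) U)
    (h : ∀ z ∈ U, (p z : ℂ) = ∑ s, ∑ t, B s t * g s z * (starRingEnd ℂ) (g t z)) :
    Rep p U (Fintype.card σ) := by
  -- the hermitian part
  let H : Matrix σ σ ℂ := (1 / 2 : ℂ) • (B + B.conjTranspose)
  have hH : H.IsHermitian := by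
    have h1 : (B + B.conjTranspose).IsHermitian := by
      rw [Matrix.IsHermitian, Matrix.conjTranspose_add, Matrix.conjTranspose_conjTranspose,
        add_comm]
    rw [Matrix.IsHermitian, Matrix.conjTranspose_smul, h1]
    congr 1
    simp
  have hp : ∀ z ∈ U, (p z : ℂ) = ∑ s, ∑ t, H s t * g s z * (starRingEnd ℂ) (g t z) := by
    intro z hz
    have h1 := h z hz
    have h2 : (p z : ℂ) = ∑ s, ∑ t, B.conjTranspose s t * g s z * (starRingEnd ℂ) (g t z) := by
      have h3 : (p z : ℂ) = (starRingEnd ℂ) (p z : ℂ) := (Complex.conj_ofReal _).symm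
      rw [h3, h1, map_sum]
      simp only [map_sum, map_mul, Complex.conj_conj]
      rw [Finset.sum_comm]
      refine Finset.sum_congr rfl fun s _ => Finset.sum_congr rfl fun t _ => ?_
      rw [Matrix.conjTranspose_apply, ← starRingEnd_apply]
      ring
    have h4 : (p z : ℂ) = (1 / 2 : ℂ) * (p z : ℂ) + (1 / 2 : ℂ) * (p z : ℂ) := by ring
    rw [h4]
    nth_rewrite 1 [h1]
    rw [h2, Finset.mul_sum, Finset.mul_sum, ← Finset.sum_add_distrib]
    refine Finset.sum_congr rfl fun s _ => ?_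
    rw [Finset.mul_sum, Finset.mul_sum, ← Finset.sum_add_distrib]
    refine Finset.sum_congr rfl fun t _ => ?_
    simp only [H, Matrix.smul_apply, Matrix.add_apply, smul_eq_mul]
    ring
  -- the spectral theorem
  let V : Matrix σ σ ℂ := (hH.eigenvectorUnitary : Matrix σ σ ℂ)
  have hspec : ∀ s t, H s t = ∑ l, V s l * (hH.eigenvalues l : ℂ) * (starRingEnd ℂ) (V t l) := by
    intro s t
    have h1 := hH.spectral_theorem
    have h2 : H = V * Matrix.diagonal (fun l => (hH.eigenvalues l : ℂ)) * star V := by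
      conv_lhs => rw [h1]
      rw [Unitary.conjStarAlgAut_apply]
      rfl
    have h3 := congrFun (congrFun h2 s) t
    rw [h3, Matrix.mul_apply]
    refine Finset.sum_congr rfl fun l _ => ?_
    rw [Matrix.mul_diagonal, Matrix.star_apply, ← starRingEnd_apply]
  -- conclusion
  have e := Fintype.equivFin σ
  let ε : σ → ℝ := fun l => if 0 ≤ hH.eigenvalues l then 1 else -1
  let f : σ → (κ → ℂ) → ℂ := fun l z =>
    ((Real.sqrt |hH.eigenvalues l| : ℝ) : ℂ) * ∑ s, V s l * g s z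
  have hε : ∀ l, ε l * |hH.eigenvalues l| = hH.eigenvalues l := by
    intro l
    simp only [ε]
    split_ifs with h0
    · rw [abs_of_nonneg h0, one_mul]
    · rw [abs_of_neg (not_le.1 h0)]
      ring
  have hfinal : ∀ z ∈ U, p z = ∑ l, ε l * Complex.normSq (f l z) := by
    intro z hz
    have h1 : (p z : ℂ) = ((∑ l, ε l * Complex.normSq (f l z) : ℝ) : ℂ) := by
      rw [hp z hz]
      push_cast
      have h2 : ∀ l, (ε l : ℂ) * (Complex.normSq (f l z) : ℂ) =
          ∑ s, ∑ t, V s l * (hH.eigenvalues l : ℂ) * (starRingEnd ℂ) (V t l) * g s z *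
            (starRingEnd ℂ) (g t z) := by
        intro l
        have h3 : Complex.normSq (f l z) = |hH.eigenvalues l| *
            Complex.normSq (∑ s, V s l * g s z) := by
          simp only [f]
          rw [Complex.normSq_mul, Complex.normSq_ofReal, Real.mul_self_sqrt (abs_nonneg _)]
        rw [h3]
        push_cast
        rw [← mul_assoc]
        have h5 : ((ε l : ℂ) * ((|hH.eigenvalues l| : ℝ) : ℂ)) = (hH.eigenvalues l : ℂ) := by
          rw [← Complex.ofReal_mul, hε l]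
        rw [h5, ← Complex.mul_conj, map_sum, Finset.sum_mul_sum, Finset.mul_sum]
        refine Finset.sum_congr rfl fun s _ => ?_
        rw [Finset.mul_sum]
        refine Finset.sum_congr rfl fun t _ => ?_
        rw [map_mul]
        ring
      simp only [h2, hspec]
      rw [Finset.sum_comm (s := Finset.univ) (t := Finset.univ) (f := fun l s => ∑ t, V s l *
        (hH.eigenvalues l : ℂ) * (starRingEnd ℂ) (V t l) * g s z * (starRingEnd ℂ) (g t z))]
      refine Finset.sum_congr rfl fun s _ => ?_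
      rw [Finset.sum_comm]
      refine Finset.sum_congr rfl fun t _ => ?_
      rw [Finset.sum_mul, Finset.sum_mul]
    exact_mod_cast h1
  refine ⟨fun j => ε (e.symm j), fun j => f (e.symm j), fun j => ?_, fun j => ?_, fun z hz => ?_⟩
  · simp only [ε]
    split_ifs
    · exact Or.inl rfl
    · exact Or.inr rfl
  · intro z hz
    refine analyticAt_const.mul ?_
    exact Finset.analyticAt_fun_sum _ fun s _ => analyticAt_const.mul (hg s z hz)
  · rw [hfinal z hz]
    exact (Equiv.sum_comp e.symm (fun l => ε l * Complex.normSq (f l z))).symm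

end Pool.Agent.T2H76.HR
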