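import Mathlib
import Pool.Agent.T2H76.HR.F

/-!
# Hermitian symmetry of polarizations, local representation
-/

set_option autoImplicit false

open Filter Topology Set Metric

namespace Pool.Agent.T2H76.HR

section conjugate

variable {E : Type*} [NormedAddCommGroup E] [NormedSpace ℂ E] [StarAddMonoid E]
  [NormedStarGroup E] [StarModule ℂ E]

/-- the conjugate power series -/
noncomputable def conjSeries (q : FormalMultilinearSeries ℂ E ℂ) :
    FormalMultilinearSeries ℂ E ℂ := fun m =>
  { toFun := fun v => (starRingEnd ℂ) (q m (fun i => star (v i)))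
    map_update_add' := by
      intro _ v i x y
      have h : ∀ x, (fun j => star (Function.update v i x j)) =
          Function.update (fun j => star (v j)) i (star x) := by
        intro x
        funext j
        by_cases hj : j = i
        · subst hj
          simp
        · simp [Function.update_of_ne hj]
      rw [h, h, h, star_add, (q m).map_update_add, map_add]
    map_update_smul' := by
      intro _ v i c x
      have h : ∀ x, (fun j => star (Function.update v i x j)) =
          Function.update (fun j => star (v j)) i (star x) := by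
        intro x
        funext j
        by_cases hj : j = i
        · subst hj
          simp
        · simp [Function.update_of_ne hj]
      rw [h, h, star_smul, (q m).map_update_smul, smul_eq_mul, map_mul, smul_eq_mul,
        starRingEnd_apply, star_star]
    cont := by
      have h1 : Continuous fun v : Fin m → E => (fun i => star (v i)) := by
        refine continuous_pi fun i => ?_
        exact continuous_star.comp (continuous_apply i)
      exact Complex.continuous_conj.comp ((q m).cont.comp h1) }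

theorem conjSeries_apply (q : FormalMultilinearSeries ℂ E ℂ) (m : ℕ) (v : Fin m → E) :
    conjSeries q m v = (starRingEnd ℂ) (q m (fun i => star (v i))) := rfl

theorem conjSeries_norm (q : FormalMultilinearSeries ℂ E ℂ) (m : ℕ) :
    ‖conjSeries q m‖ ≤ ‖q m‖ := by
  refine ContinuousMultilinearMap.opNorm_le_bound (norm_nonneg _) fun z => ?_
  rw [conjSeries_apply, Complex.norm_conj]
  refine ((q m).le_opNorm _).trans (le_of_eq ?_)
  simp only [norm_star]

theorem analytic_conj {F : E → ℂ} {z : E} (h : AnalyticAt ℂ F (star z)) :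
    AnalyticAt ℂ (fun w => (starRingEnd ℂ) (F (star w))) z := by
  obtain ⟨q, R, hq⟩ := h
  refine ⟨conjSeries q, R, ?_, hq.r_pos, ?_⟩
  · exact hq.r_le.trans (FormalMultilinearSeries.radius_le_of_le fun n => conjSeries_norm q n)
  · intro y hy
    have h1 : star y ∈ Metric.eball (0 : E) R := by
      rw [Metric.mem_eball, edist_zero_right] at hy ⊢
      have : ‖star y‖ₑ = ‖y‖ₑ := by
        rw [enorm_eq_nnnorm, enorm_eq_nnnorm, nnnorm_star]
      rwa [this]
    have h2 := hq.hasSum h1
    have h3 := h2.map (starRingEnd ℂ) Complex.continuous_conj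
    rw [← star_add] at h3
    exact h3

end conjugate

variable {κ : Type*} [Fintype κ]

theorem star_mem_ball {r : ℝ} {z x : κ → ℂ} (h : z ∈ ball x r) : star z ∈ ball (star x) r := by
  rw [mem_ball_iff_norm] at *
  rwa [← star_sub, norm_star]

/-- Hermitian symmetry -/
theorem herm_symm {r : ℝ} (x : κ → ℂ) {p : (κ → ℂ) → ℝ} {P : (κ → ℂ) → (κ → ℂ) → ℂ}
    (hP : AnalyticOnNhd ℂ (fun w : (κ → ℂ) × (κ → ℂ) => P w.1 w.2)
      (ball x r ×ˢ ball (star x) r))
    (hPp : ∀ z ∈ ball x r, P z (star z) = p z) {z v : κ → ℂ}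
    (hz : z ∈ ball x r) (hv : v ∈ ball (star x) r) :
    P z v = (starRingEnd ℂ) (P (star v) (star z)) := by
  have h1 := polar_unique x
    (F := fun w => P w.1 w.2 - (starRingEnd ℂ) (P (star w.2) (star w.1))) (r := r) ?_ ?_ (z, v)
    ⟨hz, hv⟩
  · exact sub_eq_zero.1 h1
  · intro w hw
    refine (hP w hw).sub ?_
    have h2 : AnalyticAt ℂ (fun w : (κ → ℂ) × (κ → ℂ) => P w.2 w.1) (star w) := by
      have h3 : AnalyticAt ℂ (fun w : (κ → ℂ) × (κ → ℂ) => (w.2, w.1)) (star w) :=
        analyticAt_snd.prod analyticAt_fst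
      refine AnalyticAt.fun_comp (g := fun w : (κ → ℂ) × (κ → ℂ) => P w.1 w.2)
        (f := fun w : (κ → ℂ) × (κ → ℂ) => (w.2, w.1)) (hP _ ⟨?_, ?_⟩) h3
      · have := star_mem_ball hw.2
        rwa [star_star] at this
      · exact star_mem_ball hw.1
    exact analytic_conj h2
  · intro z hz
    simp only
    rw [star_star, hPp z hz, Complex.conj_ofReal, sub_self]

theorem local_rep [DecidableEq κ] {r : ℝ} (hr : 0 < r) {p : (κ → ℂ) → ℝ}
    {P : (κ → ℂ) → (κ → ℂ) → ℂ}
    (hP : AnalyticOnNhd ℂ (fun w : (κ → ℂ) × (κ → ℂ) => P w.1 w.2) (ball 0 r ×ˢ ball 0 r))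
    (hPp : ∀ z ∈ ball (0 : κ → ℂ) r, P z (star z) = p z) {k : ℕ}
    (hline : ∀ a b : κ → ℂ, ∃ (ε : Fin k → ℝ) (g : Fin k → ℂ → ℂ),
      (∀ j, Differentiable ℂ (g j)) ∧ ∀ t : ℂ, p (a + t • b) = ∑ j, ε j * Complex.normSq (g j t)) :
    ∃ m : ℕ, m ≤ (k ^ Fintype.card κ) ^ Fintype.card κ ∧ Rep p (ball 0 (r / 4)) m := by
  have hr4 : 0 < r / 4 := by positivity
  have hsub : ball (0 : κ → ℂ) (r / 4) ⊆ ball 0 r := ball_subset_ball (by linarith)
  set M := (k ^ Fintype.card κ) ^ Fintype.card κ with hM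
  set U := {z : κ → ℂ // z ∈ ball (0 : κ → ℂ) (r / 4)} with hU
  obtain ⟨m, hmM, ⟨x, y, hdet⟩, hmax⟩ : ∃ m : ℕ, m ≤ M ∧
      (∃ x y : Fin m → U, (Matrix.of fun a b => P (x a).1 (y b).1).det ≠ 0) ∧
      ¬ (∃ x y : Fin (m + 1) → U, (Matrix.of fun a b => P (x a).1 (y b).1).det ≠ 0) := by
    by_contra hcon
    push Not at hcon
    have h1 : ∀ m : ℕ, m ≤ M + 1 →
        ∃ x y : Fin m → U, (Matrix.of fun a b => P (x a).1 (y b).1).det ≠ 0 := by
      intro m
      induction m with
      | zero =>
        intro _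
        exact ⟨Fin.elim0, Fin.elim0, by simp⟩
      | succ m ihm =>
        intro hm
        obtain ⟨x, y, h4⟩ := ihm (by omega)
        exact hcon m (by omega) ⟨x, y, h4⟩
    obtain ⟨x, y, h4⟩ := h1 (M + 1) le_rfl
    exact h4 (local_rank hr hP hPp hline (Nat.lt_succ_self _) _ _ (fun a => (x a).2)
      (fun a => (y a).2))
  refine ⟨m, hmM, ?_⟩
  let N : Matrix (Fin m) (Fin m) ℂ := Matrix.of fun a b => P (x a).1 (y b).1
  have hN : N.det ≠ 0 := hdet
  have hNu : IsUnit N.det := isUnit_iff_ne_zero.2 hN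
  -- the factorization
  have hfac : ∀ z v : U, P z.1 v.1 =
      ∑ a, ∑ b, P z.1 (y b).1 * N⁻¹ b a * P (x a).1 v.1 := by
    intro z v
    obtain ⟨h, hh⟩ := bordered (fun z v : U => P z.1 v.1) x y hdet z (by
      intro y'
      by_contra hne
      exact hmax ⟨_, _, hne⟩)
    have h1 : (fun b => P z.1 (y b).1) = Matrix.vecMul h N := by
      funext b
      rw [hh (y b)]
      rfl
    have h2 : h = Matrix.vecMul (fun b => P z.1 (y b).1) N⁻¹ := by
      rw [h1, Matrix.vecMul_vecMul, Matrix.mul_nonsing_inv _ hNu, Matrix.vecMul_one]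
    rw [hh v]
    refine Finset.sum_congr rfl fun a _ => ?_
    conv_lhs => rw [h2]
    rw [Matrix.vecMul, dotProduct, Finset.sum_mul]
  have hst : ∀ z : U, star z.1 ∈ ball (0 : κ → ℂ) (r / 4) := by
    intro z
    have := star_mem_ball z.2
    rwa [star_zero] at this
  have hsymm : ∀ z v : U, P z.1 v.1 = (starRingEnd ℂ) (P (star v.1) (star z.1)) := by
    intro z v
    refine herm_symm (r := r) (0 : κ → ℂ) (by rw [star_zero]; exact hP) hPp (hsub z.2) ?_
    rw [star_zero]
    exact hsub v.2
  let C : Matrix (Fin m) (Fin m) ℂ := Matrix.of fun b a =>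
    ∑ a', N⁻¹ b a' * P (x a').1 (star (x a).1)
  let B : Matrix (Fin m) (Fin m) ℂ := Matrix.of fun b b' =>
    ∑ a, N⁻¹ b a * (starRingEnd ℂ) (C b' a)
  have hC : ∀ (z : U) (a : Fin m), P z.1 (star (x a).1) = ∑ b, C b a * P z.1 (y b).1 := by
    intro z a
    have h1 := hfac z ⟨_, hst (x a)⟩
    rw [h1, Finset.sum_comm]
    refine Finset.sum_congr rfl fun b _ => ?_
    simp only [C, Matrix.of_apply, Finset.sum_mul]
    exact Finset.sum_congr rfl fun a' _ => by ring
  have h1 := herm_rep (U := ball (0 : κ → ℂ) (r / 4)) (p := p) B (fun b z => P z (y b).1) ?_ ?_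
  · rwa [Fintype.card_fin] at h1
  · intro b z hz
    exact AnalyticAt.fun_comp (g := fun w : (κ → ℂ) × (κ → ℂ) => P w.1 w.2)
      (f := fun z : κ → ℂ => (z, (y b).1)) (hP _ ⟨hsub hz, hsub (y b).2⟩)
      (analyticAt_id.prod analyticAt_const)
  · intro z hz
    rw [← hPp z (hsub hz)]
    have h2 := hfac ⟨z, hz⟩ ⟨star z, hst ⟨z, hz⟩⟩
    simp only at h2
    rw [h2, Finset.sum_comm]
    have h3 : ∀ a, P (x a).1 (star z) = ∑ b', (starRingEnd ℂ) (C b' a) *
        (starRingEnd ℂ) (P z (y b').1) := by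
      intro a
      have h4 := hsymm (x a) ⟨star z, hst ⟨z, hz⟩⟩
      simp only [star_star] at h4
      rw [h4, hC ⟨z, hz⟩ a, map_sum]
      exact Finset.sum_congr rfl fun b' _ => by rw [map_mul]
    refine Finset.sum_congr rfl fun b _ => ?_
    simp only [h3, B, Matrix.of_apply, Finset.mul_sum, Finset.sum_mul]
    rw [Finset.sum_comm]
    refine Finset.sum_congr rfl fun b' _ => Finset.sum_congr rfl fun a _ => ?_
    ring

end Pool.Agent.T2H76.HR
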