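import Mathlib
import Pool.Agent.T2H76.HR.F2

/-!
# Minimal representations and their continuation
-/

set_option autoImplicit false

open Filter Topology Set Metric

namespace Pool.Agent.T2H76.HR

variable {κ : Type*} [Fintype κ]

theorem rep_indep {U : Set (κ → ℂ)} {p : (κ → ℂ) → ℝ} : ∀ {m : ℕ}, Rep p U m →
    ∃ m' : ℕ, m' ≤ m ∧ ∃ (ε : Fin m' → ℝ) (f : Fin m' → (κ → ℂ) → ℂ),
      (∀ j, ε j = 1 ∨ ε j = -1) ∧ (∀ j, AnalyticOnNhd ℂ (f j) U) ∧
      (∀ z ∈ U, p z = ∑ j, ε j * Complex.normSq (f j z)) ∧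
      ∀ c : Fin m' → ℂ, (∀ z ∈ U, ∑ j, c j * f j z = 0) → c = 0 := by
  intro m
  induction m with
  | zero =>
    rintro ⟨ε, f, h1, h2, h3⟩
    exact ⟨0, le_rfl, ε, f, h1, h2, h3, fun c _ => Subsingleton.elim _ _⟩
  | succ m ih =>
    rintro ⟨ε, f, h1, h2, h3⟩
    by_cases hind : ∀ c : Fin (m + 1) → ℂ, (∀ z ∈ U, ∑ j, c j * f j z = 0) → c = 0
    · exact ⟨m + 1, le_rfl, ε, f, h1, h2, h3, hind⟩
    push Not at hind
    obtain ⟨c, hc, hc0⟩ := hind
    obtain ⟨j0, hj0⟩ : ∃ j0, c j0 ≠ 0 := by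
      by_contra hcon
      push Not at hcon
      exact hc0 (funext hcon)
    let d : Fin m → ℂ := fun s => -(c (j0.succAbove s) / c j0)
    have hd : ∀ z ∈ U, f j0 z = ∑ s, d s * f (j0.succAbove s) z := by
      intro z hz
      have h4 := hc z hz
      rw [Fin.sum_univ_succAbove _ j0] at h4
      have h5 : f j0 z = -(∑ s, c (j0.succAbove s) * f (j0.succAbove s) z) / c j0 := by
        field_simp
        linear_combination h4
      rw [h5, neg_div, Finset.sum_div, ← Finset.sum_neg_distrib]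
      exact Finset.sum_congr rfl fun s _ => by
        simp only [d]
        ring
    have h6 : Rep p U m := by
      let B : Matrix (Fin m) (Fin m) ℂ := Matrix.of fun s t =>
        (if s = t then (ε (j0.succAbove s) : ℂ) else 0) + (ε j0 : ℂ) * d s * (starRingEnd ℂ) (d t)
      have h7 := herm_rep (U := U) (p := p) B (fun s => f (j0.succAbove s)) (fun s => h2 _) ?_
      · rwa [Fintype.card_fin] at h7
      · intro z hz
        rw [h3 z hz, Fin.sum_univ_succAbove _ j0]
        push_cast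
        rw [← Complex.mul_conj, hd z hz, map_sum, Finset.sum_mul_sum]
        simp only [B, Matrix.of_apply, add_mul, Finset.sum_add_distrib, ite_mul, zero_mul,
          Finset.sum_ite_eq, Finset.mem_univ, if_true]
        rw [add_comm]
        congr 1
        · refine Finset.sum_congr rfl fun s _ => ?_
          rw [mul_assoc, Complex.mul_conj]
        · rw [Finset.mul_sum]
          refine Finset.sum_congr rfl fun s _ => ?_
          rw [Finset.mul_sum]
          refine Finset.sum_congr rfl fun t _ => ?_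
          rw [map_mul]
          ring
    obtain ⟨m', hm', h⟩ := ih h6
    exact ⟨m', hm'.trans (Nat.le_succ m), h⟩

theorem exists_points {X : Type*} {m : ℕ} (G : Fin m → X → ℂ) (V : Set X)
    (hind : ∀ c : Fin m → ℂ, (∀ z ∈ V, ∑ j, c j * G j z = 0) → c = 0) :
    ∃ w : Fin m → X, (∀ l, w l ∈ V) ∧ (Matrix.of fun l j => G j (w l)).det ≠ 0 := by
  classical
  let S : Set (Fin m → ℂ) := (fun z j => G j z) '' V
  have hS : (⊤ : Submodule ℂ (Fin m → ℂ)) ≤ Submodule.span ℂ S := by
    by_contra hcon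
    have hlt : Submodule.span ℂ S < ⊤ := by
      rw [lt_top_iff_ne_top]
      intro h
      exact hcon h.ge
    obtain ⟨f, hf0, hf⟩ := Submodule.exists_le_ker_of_lt_top _ hlt
    apply hf0
    have h1 : (fun j => f (Pi.single j 1)) = 0 := by
      apply hind
      intro z hz
      have h2 : f (fun j => G j z) = 0 := hf (Submodule.subset_span ⟨z, hz, rfl⟩)
      rw [LinearMap.pi_apply_eq_sum_univ f] at h2
      rw [← h2]
      refine Finset.sum_congr rfl fun j _ => ?_
      rw [smul_eq_mul, mul_comm]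
      congr 1
      congr 1
      funext i
      by_cases hij : i = j
      · subst hij
        simp
      · rw [Pi.single_eq_of_ne hij]
        simp [Ne.symm hij]
    apply LinearMap.pi_ext'
    intro j
    ext
    simpa using congrFun h1 j
  let b := Module.Basis.ofSpan hS
  have hfin : Fintype ((linearIndepOn_empty ℂ id).extend (empty_subset S)) :=
    FiniteDimensional.fintypeBasisIndex b
  have hcard : Fintype.card ((linearIndepOn_empty ℂ id).extend (empty_subset S)) = m := by
    rw [← Module.finrank_eq_card_basis b, Module.finrank_fintype_fun_eq_card, Fintype.card_fin]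
  let e := Fintype.equivFinOfCardEq hcard
  let b' := b.reindex e
  have hb' : ∀ l, ∃ z ∈ V, (fun j => G j z) = b' l := by
    intro l
    have h1 : b' l ∈ S := by
      apply Module.Basis.ofSpan_subset hS
      exact ⟨e.symm l, by simp [b', b]⟩
    exact h1
  choose w hw1 hw2 using hb'
  refine ⟨w, hw1, ?_⟩
  have h2 : (Matrix.of fun l j => G j (w l)) = Matrix.of fun l => b' l := by
    ext l j
    exact congrFun (hw2 l) j
  rw [h2]
  have h3 : LinearIndependent ℂ (Matrix.of fun l => b' l).row := b'.linearIndependent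
  have h4 := Matrix.linearIndependent_rows_iff_isUnit.1 h3
  rw [Matrix.isUnit_iff_isUnit_det] at h4
  exact h4.ne_zero

/-- uniform polarization -/
theorem uniform_polar {p : (κ → ℂ) → ℝ} (hp : AnalyticOnNhd ℝ p univ) (R : ℝ) :
    ∃ ρ : ℝ, 0 < ρ ∧ ∀ x ∈ closedBall (0 : κ → ℂ) R, ∃ P : (κ → ℂ) → (κ → ℂ) → ℂ,
      AnalyticOnNhd ℂ (fun w : (κ → ℂ) × (κ → ℂ) => P w.1 w.2) (ball x ρ ×ˢ ball (star x) ρ) ∧
      ∀ z ∈ ball x ρ, P z (star z) = p z := by
  choose r hr P hP1 hP2 using fun x : κ → ℂ => polarize p x (hp x (mem_univ x))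
  obtain ⟨ρ, hρ, h⟩ := lebesgue_number_lemma_of_metric (c := fun x : κ → ℂ => ball x (r x))
    (isCompact_closedBall (0 : κ → ℂ) R) (fun x => isOpen_ball)
    (fun x _ => mem_iUnion.2 ⟨x, mem_ball_self (hr x)⟩)
  refine ⟨ρ, hρ, fun x hx => ?_⟩
  obtain ⟨y, hy⟩ := h x hx
  refine ⟨P y, (hP1 y).mono (prod_mono hy ?_), fun z hz => hP2 y z (hy hz)⟩
  intro w hw
  have h1 := star_mem_ball hw
  rw [star_star] at h1
  have h2 := star_mem_ball (hy h1)
  rwa [star_star] at h2

/-- local continuation -/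
theorem local_ext {R r0 : ℝ} (hR : r0 ≤ R) {m : ℕ} {ε : Fin m → ℝ}
    (hε : ∀ j, ε j = 1 ∨ ε j = -1) {G : Fin m → (κ → ℂ) → ℂ}
    (hG : ∀ j, AnalyticOnNhd ℂ (G j) (ball 0 R)) {p : (κ → ℂ) → ℝ}
    (hpG : ∀ z ∈ ball (0 : κ → ℂ) R, p z = ∑ j, ε j * Complex.normSq (G j z))
    (hind : ∀ c : Fin m → ℂ, (∀ z ∈ ball (0 : κ → ℂ) r0, ∑ j, c j * G j z = 0) → c = 0)
    {x : κ → ℂ} (hx : x ∈ ball (0 : κ → ℂ) R) {ρ : ℝ} (hρ : 0 < ρ)
    {P : (κ → ℂ) → (κ → ℂ) → ℂ}
    (hP : AnalyticOnNhd ℂ (fun w : (κ → ℂ) × (κ → ℂ) => P w.1 w.2)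
      (ball x ρ ×ˢ ball (star x) ρ))
    (hPp : ∀ z ∈ ball x ρ, P z (star z) = p z) :
    ∃ H : Fin m → (κ → ℂ) → ℂ, (∀ j, AnalyticOnNhd ℂ (H j) (ball x ρ)) ∧
      ∀ j, ∀ z ∈ ball x ρ ∩ ball 0 R, H j z = G j z := by
  obtain ⟨δ, hδ, hδsub⟩ : ∃ δ : ℝ, 0 < δ ∧ ball x δ ⊆ ball x ρ ∩ ball (0 : κ → ℂ) R :=
    Metric.isOpen_iff.1 (isOpen_ball.inter isOpen_ball) x ⟨mem_ball_self hρ, hx⟩
  have hδ' : ball (star x) δ ⊆ ball (star x) ρ := by
    intro w hw
    have h1 := star_mem_ball hw
    rw [star_star] at h1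
    have h2 := star_mem_ball (hδsub h1).1
    rwa [star_star] at h2
  -- the polarized identity
  have hpol : ∀ z ∈ ball x δ, ∀ w ∈ ball x δ, P z (star w) =
      ∑ j, (ε j : ℂ) * G j z * (starRingEnd ℂ) (G j w) := by
    intro z hz w hw
    have h1 := polar_unique x (r := δ)
      (F := fun u => P u.1 u.2 - ∑ j, (ε j : ℂ) * G j u.1 * (starRingEnd ℂ) (G j (star u.2)))
      ?_ ?_ (z, star w) ⟨hz, star_mem_ball hw⟩
    · have h2 := sub_eq_zero.1 h1
      simp only [star_star] at h2
      exact h2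
    · intro u hu
      refine (hP u ⟨(hδsub hu.1).1, hδ' hu.2⟩).sub ?_
      refine Finset.analyticAt_fun_sum _ fun j _ => ?_
      refine (analyticAt_const.mul ?_).mul ?_
      · exact AnalyticAt.fun_comp (g := G j) (hG j _ (hδsub hu.1).2) analyticAt_fst
      · have h3 : AnalyticAt ℂ (fun v : κ → ℂ => (starRingEnd ℂ) (G j (star v))) u.2 := by
          apply analytic_conj
          refine hG j _ (hδsub ?_).2
          have := star_mem_ball hu.2
          rwa [star_star] at this
        exact AnalyticAt.fun_comp (g := fun v : κ → ℂ => (starRingEnd ℂ) (G j (star v)))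
          h3 analyticAt_snd
    · intro z hz
      simp only [star_star]
      rw [hPp z (hδsub hz).1, hpG z (hδsub hz).2]
      push_cast
      rw [sub_eq_zero]
      exact Finset.sum_congr rfl fun j _ => by rw [mul_assoc, Complex.mul_conj]
  -- the points
  obtain ⟨w, hw, hdet⟩ := exists_points G (ball x δ) (by
    intro c hc
    apply hind
    intro z hz
    have h1 : AnalyticOnNhd ℂ (fun z => ∑ j, c j * G j z) (ball 0 R) := fun z hz =>
      Finset.analyticAt_fun_sum _ fun j _ => analyticAt_const.mul (hG j z hz)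
    have h2 : (fun z => ∑ j, c j * G j z) =ᶠ[𝓝 x] 0 := by
      filter_upwards [ball_mem_nhds x hδ] with z hz
      exact hc z hz
    exact h1.eqOn_zero_of_preconnected_of_eventuallyEq_zero (convex_ball _ _).isPreconnected hx h2
      (ball_subset_ball hR hz))
  let M : Matrix (Fin m) (Fin m) ℂ := Matrix.of fun l j => (starRingEnd ℂ) (G j (w l))
  have hM : IsUnit M.det := by
    have h1 : M = (Matrix.of fun l j => G j (w l)).map (starRingEnd ℂ) := by
      ext l j
      rfl
    rw [h1, ← RingHom.mapMatrix_apply, ← RingHom.map_det]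
    exact isUnit_iff_ne_zero.2 ((map_ne_zero _).2 hdet)
  let H : Fin m → (κ → ℂ) → ℂ := fun j z => (ε j : ℂ) * ∑ l, M⁻¹ j l * P z (star (w l))
  have hHan : ∀ j, AnalyticOnNhd ℂ (H j) (ball x ρ) := by
    intro j z hz
    refine analyticAt_const.mul (Finset.analyticAt_fun_sum _ fun l _ => analyticAt_const.mul ?_)
    exact AnalyticAt.fun_comp (g := fun w : (κ → ℂ) × (κ → ℂ) => P w.1 w.2)
      (f := fun z : κ → ℂ => (z, star (w l))) (hP _ ⟨hz, hδ' (star_mem_ball (hw l))⟩)
      (analyticAt_id.prod analyticAt_const)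
  refine ⟨H, hHan, fun j z hz => ?_⟩
  have hloc : ∀ z ∈ ball x δ, H j z = G j z := by
    intro z hz
    have h1 : (fun l => P z (star (w l))) = M.mulVec (fun j => (ε j : ℂ) * G j z) := by
      funext l
      rw [hpol z hz (w l) (hw l), Matrix.mulVec, dotProduct]
      refine Finset.sum_congr rfl fun j _ => ?_
      simp only [M, Matrix.of_apply]
      ring
    have h2 : (fun j => ∑ l, M⁻¹ j l * P z (star (w l))) = fun j => (ε j : ℂ) * G j z := by
      have h3 : (fun j => ∑ l, M⁻¹ j l * P z (star (w l))) =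
          M⁻¹.mulVec (fun l => P z (star (w l))) := rfl
      rw [h3, h1, Matrix.mulVec_mulVec, Matrix.nonsing_inv_mul _ hM, Matrix.one_mulVec]
    have h4 := congrFun h2 j
    simp only [H]
    rw [h4]
    rcases hε j with h | h <;> rw [h] <;> push_cast <;> ring
  have h1 : AnalyticOnNhd ℂ (fun z => H j z - G j z) (ball x ρ ∩ ball 0 R) := fun z hz =>
    (hHan j z hz.1).sub (hG j z hz.2)
  have h2 : (fun z => H j z - G j z) =ᶠ[𝓝 x] 0 := by
    filter_upwards [ball_mem_nhds x hδ] with z hz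
    simp only [Pi.zero_apply]
    rw [hloc z hz, sub_self]
  exact sub_eq_zero.1 (h1.eqOn_zero_of_preconnected_of_eventuallyEq_zero
    ((convex_ball _ _).inter (convex_ball _ _)).isPreconnected
    ⟨mem_ball_self hρ, hx⟩ h2 hz)

end Pool.Agent.T2H76.HR
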