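import Mathlib
import Pool.Agent.T2H76.HR.G

/-!
# Global continuation
-/

set_option autoImplicit false

open Filter Topology Set Metric

namespace Pool.Agent.T2H76.HR

variable {κ : Type*} [Fintype κ]

/-- one step of the continuation -/
theorem ext_step {R r0 : ℝ} (h0 : 0 < r0) (hR : r0 ≤ R) {m : ℕ} {ε : Fin m → ℝ}
    (hε : ∀ j, ε j = 1 ∨ ε j = -1) {G : Fin m → (κ → ℂ) → ℂ}
    (hG : ∀ j, AnalyticOnNhd ℂ (G j) (ball 0 R)) {p : (κ → ℂ) → ℝ}
    (hpG : ∀ z ∈ ball (0 : κ → ℂ) R, p z = ∑ j, ε j * Complex.normSq (G j z))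
    (hind : ∀ c : Fin m → ℂ, (∀ z ∈ ball (0 : κ → ℂ) r0, ∑ j, c j * G j z = 0) → c = 0)
    {ρ : ℝ} (hρ : 0 < ρ)
    (hpol : ∀ x ∈ ball (0 : κ → ℂ) R, ∃ P : (κ → ℂ) → (κ → ℂ) → ℂ,
      AnalyticOnNhd ℂ (fun w : (κ → ℂ) × (κ → ℂ) => P w.1 w.2) (ball x ρ ×ˢ ball (star x) ρ) ∧
      ∀ z ∈ ball x ρ, P z (star z) = p z) :
    ∃ G' : Fin m → (κ → ℂ) → ℂ, (∀ j, AnalyticOnNhd ℂ (G' j) (ball 0 (R + ρ / 2))) ∧
      ∀ j, ∀ z ∈ ball (0 : κ → ℂ) R, G' j z = G j z := by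
  have hRpos : 0 < R := lt_of_lt_of_le h0 hR
  have hloc : ∀ x ∈ ball (0 : κ → ℂ) R, ∃ H : Fin m → (κ → ℂ) → ℂ,
      (∀ j, AnalyticOnNhd ℂ (H j) (ball x ρ)) ∧
      ∀ j, ∀ z ∈ ball x ρ ∩ ball 0 R, H j z = G j z := by
    intro x hx
    obtain ⟨P, hP1, hP2⟩ := hpol x hx
    exact local_ext hR hε hG hpG hind hx hρ hP1 hP2
  choose! H hH1 hH2 using hloc
  set q : ℝ := R / (R + ρ / 2) with hq
  have hden : 0 < R + ρ / 2 := by positivity
  have hq0 : 0 < q := by positivity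
  have hq1 : q < 1 := by
    rw [hq, div_lt_one hden]
    linarith
  have hqR : q * (R + ρ / 2) = R := by
    rw [hq]
    field_simp
  have hscale : ∀ z ∈ ball (0 : κ → ℂ) (R + ρ / 2), q • z ∈ ball (0 : κ → ℂ) R ∧
      ‖z - q • z‖ < ρ / 2 := by
    intro z hz
    rw [mem_ball_zero_iff] at hz
    constructor
    · rw [mem_ball_zero_iff, norm_smul, Real.norm_of_nonneg hq0.le]
      calc q * ‖z‖ < q * (R + ρ / 2) := by gcongr
        _ = R := hqR
    · have h1 : z - q • z = (1 - q) • z := by rw [sub_smul, one_smul]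
      rw [h1, norm_smul, Real.norm_of_nonneg (by linarith)]
      calc (1 - q) * ‖z‖ < (1 - q) * (R + ρ / 2) := by
            have : 0 < 1 - q := by linarith
            gcongr
        _ = ρ / 2 := by linarith
  refine ⟨fun j z => H (q • z) j z, fun j z0 hz0 => ?_, fun j z hz => ?_⟩
  · obtain ⟨h1, h2⟩ := hscale z0 hz0
    have h3 : z0 ∈ ball (q • z0) ρ := by
      rw [mem_ball_iff_norm]
      linarith
    have h4 : AnalyticAt ℂ (H (q • z0) j) z0 := hH1 _ h1 j z0 h3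
    refine h4.congr ?_
    filter_upwards [ball_mem_nhds z0 (half_pos hρ), isOpen_ball.mem_nhds hz0] with z hz hzR
    obtain ⟨h5, h6⟩ := hscale z hzR
    rw [mem_ball_iff_norm] at hz
    have h7 : z ∈ ball (q • z) ρ := by
      rw [mem_ball_iff_norm]
      linarith
    have h8 : z ∈ ball (q • z0) ρ := by
      rw [mem_ball_iff_norm]
      calc ‖z - q • z0‖ = ‖(z - z0) + (z0 - q • z0)‖ := by congr 1; abel
        _ ≤ ‖z - z0‖ + ‖z0 - q • z0‖ := norm_add_le _ _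
        _ < ρ := by linarith
    have h9 : q • z ∈ ball (q • z0) ρ := by
      rw [mem_ball_iff_norm, ← smul_sub, norm_smul, Real.norm_of_nonneg hq0.le]
      calc q * ‖z - z0‖ ≤ 1 * ‖z - z0‖ := by gcongr
        _ < ρ := by linarith
    have h10 : AnalyticOnNhd ℂ (fun z' => H (q • z0) j z' - H (q • z) j z')
        (ball (q • z0) ρ ∩ ball (q • z) ρ) := fun z' hz' =>
      (hH1 _ h1 j z' hz'.1).sub (hH1 _ h5 j z' hz'.2)
    have h11 : (fun z' => H (q • z0) j z' - H (q • z) j z') =ᶠ[𝓝 (q • z)] 0 := by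
      filter_upwards [isOpen_ball.mem_nhds h9, ball_mem_nhds (q • z) hρ,
        isOpen_ball.mem_nhds h5] with z' g1 g2 g3
      simp only [Pi.zero_apply]
      rw [hH2 _ h1 j z' ⟨g1, g3⟩, hH2 _ h5 j z' ⟨g2, g3⟩, sub_self]
    exact sub_eq_zero.1 (h10.eqOn_zero_of_preconnected_of_eventuallyEq_zero
      ((convex_ball _ _).inter (convex_ball _ _)).isPreconnected
      ⟨h9, mem_ball_self hρ⟩ h11 ⟨h8, h7⟩)
  · have hz' : z ∈ ball (0 : κ → ℂ) (R + ρ / 2) := ball_subset_ball (by linarith) hz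
    obtain ⟨h1, h2⟩ := hscale z hz'
    refine hH2 _ h1 j z ⟨?_, hz⟩
    rw [mem_ball_iff_norm]
    linarith

/-- real analyticity of the signed sum of squares -/
theorem analytic_sos {U : Set (κ → ℂ)} {m : ℕ} (ε : Fin m → ℝ) {G : Fin m → (κ → ℂ) → ℂ}
    (hG : ∀ j, AnalyticOnNhd ℂ (G j) U) :
    AnalyticOnNhd ℝ (fun z => ∑ j, ε j * Complex.normSq (G j z)) U := by
  intro z hz
  refine Finset.analyticAt_fun_sum _ fun j _ => analyticAt_const.mul ?_
  have h1 : AnalyticAt ℝ (G j) z := (hG j z hz).restrictScalars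
  have h2 : AnalyticAt ℝ (fun z => (G j z).re) z :=
    (Complex.reCLM.analyticAt (G j z)).comp h1
  have h3 : AnalyticAt ℝ (fun z => (G j z).im) z :=
    (Complex.imCLM.analyticAt (G j z)).comp h1
  simp only [Complex.normSq_apply]
  exact (h2.mul h2).add (h3.mul h3)

theorem rep_ident {R r0 : ℝ} (h0 : 0 < r0) (hR : r0 ≤ R) {p : (κ → ℂ) → ℝ}
    (hp : AnalyticOnNhd ℝ p univ) {m : ℕ} {ε : Fin m → ℝ} {G : Fin m → (κ → ℂ) → ℂ}
    (hG : ∀ j, AnalyticOnNhd ℂ (G j) (ball 0 R))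
    (h : ∀ z ∈ ball (0 : κ → ℂ) r0, p z = ∑ j, ε j * Complex.normSq (G j z)) :
    ∀ z ∈ ball (0 : κ → ℂ) R, p z = ∑ j, ε j * Complex.normSq (G j z) := by
  have h1 : AnalyticOnNhd ℝ (fun z => p z - ∑ j, ε j * Complex.normSq (G j z)) (ball 0 R) :=
    fun z hz => (hp z (mem_univ z)).sub (analytic_sos ε hG z hz)
  have h2 : (fun z => p z - ∑ j, ε j * Complex.normSq (G j z)) =ᶠ[𝓝 (0 : κ → ℂ)] 0 := by
    filter_upwards [ball_mem_nhds (0 : κ → ℂ) h0] with z hz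
    simp only [Pi.zero_apply]
    rw [h z hz, sub_self]
  intro z hz
  exact sub_eq_zero.1 (h1.eqOn_zero_of_preconnected_of_eventuallyEq_zero
    (convex_ball _ _).isPreconnected (mem_ball_self (lt_of_lt_of_le h0 hR)) h2 hz)

/-- continuation to every ball -/
theorem ext_ball {r0 : ℝ} (h0 : 0 < r0) {p : (κ → ℂ) → ℝ}
    (hp : AnalyticOnNhd ℝ p univ) {m : ℕ} {ε : Fin m → ℝ}
    (hε : ∀ j, ε j = 1 ∨ ε j = -1) {f : Fin m → (κ → ℂ) → ℂ}
    (hf : ∀ j, AnalyticOnNhd ℂ (f j) (ball 0 r0))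
    (hpf : ∀ z ∈ ball (0 : κ → ℂ) r0, p z = ∑ j, ε j * Complex.normSq (f j z))
    (hind : ∀ c : Fin m → ℂ, (∀ z ∈ ball (0 : κ → ℂ) r0, ∑ j, c j * f j z = 0) → c = 0)
    {R : ℝ} (hR : r0 ≤ R) :
    ∃ G : Fin m → (κ → ℂ) → ℂ, (∀ j, AnalyticOnNhd ℂ (G j) (ball 0 R)) ∧
      ∀ j, ∀ z ∈ ball (0 : κ → ℂ) r0, G j z = f j z := by
  obtain ⟨ρ, hρ, hpol⟩ := uniform_polar hp R
  have key : ∀ n : ℕ, ∃ G : Fin m → (κ → ℂ) → ℂ,
      (∀ j, AnalyticOnNhd ℂ (G j) (ball 0 (min (r0 + n * (ρ / 2)) R))) ∧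
      ∀ j, ∀ z ∈ ball (0 : κ → ℂ) r0, G j z = f j z := by
    intro n
    induction n with
    | zero =>
      refine ⟨f, fun j => (hf j).mono (ball_subset_ball ?_), fun _ _ _ => rfl⟩
      simp
    | succ n ih =>
      obtain ⟨G, hG1, hG2⟩ := ih
      have hmin : r0 ≤ min (r0 + n * (ρ / 2)) R := le_min (by
        have : 0 ≤ (n : ℝ) * (ρ / 2) := by positivity
        linarith) hR
      have hpG := rep_ident h0 hmin hp hG1 (ε := ε) (fun z hz => by
        rw [hpf z hz]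
        exact Finset.sum_congr rfl fun j _ => by rw [hG2 j z hz])
      have hind' : ∀ c : Fin m → ℂ,
          (∀ z ∈ ball (0 : κ → ℂ) r0, ∑ j, c j * G j z = 0) → c = 0 := by
        intro c hc
        apply hind
        intro z hz
        rw [← hc z hz]
        exact Finset.sum_congr rfl fun j _ => by rw [hG2 j z hz]
      obtain ⟨G', hG'1, hG'2⟩ := ext_step h0 hmin hε hG1 hpG hind' hρ (fun x hx => by
        apply hpol
        rw [mem_ball_zero_iff] at hx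
        rw [mem_closedBall_zero_iff]
        exact hx.le.trans (min_le_right _ _))
      refine ⟨G', fun j => (hG'1 j).mono (ball_subset_ball ?_), fun j z hz => ?_⟩
      · push_cast
        rcases le_total (r0 + n * (ρ / 2)) R with h | h
        · rw [min_eq_left h]
          refine (min_le_left _ _).trans ?_
          linarith
        · rw [min_eq_right h]
          refine (min_le_right _ _).trans ?_
          linarith
      · rw [hG'2 j z (ball_subset_ball hmin hz), hG2 j z hz]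
  obtain ⟨n, hn⟩ := exists_nat_ge (R / (ρ / 2))
  obtain ⟨G, hG1, hG2⟩ := key n
  refine ⟨G, fun j => (hG1 j).mono (ball_subset_ball ?_), hG2⟩
  refine le_min ?_ le_rfl
  rw [div_le_iff₀ (by positivity)] at hn
  linarith

/-- the entire continuation -/
theorem ext_entire {r0 : ℝ} (h0 : 0 < r0) {p : (κ → ℂ) → ℝ}
    (hp : AnalyticOnNhd ℝ p univ) {m : ℕ} {ε : Fin m → ℝ}
    (hε : ∀ j, ε j = 1 ∨ ε j = -1) {f : Fin m → (κ → ℂ) → ℂ}
    (hf : ∀ j, AnalyticOnNhd ℂ (f j) (ball 0 r0))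
    (hpf : ∀ z ∈ ball (0 : κ → ℂ) r0, p z = ∑ j, ε j * Complex.normSq (f j z))
    (hind : ∀ c : Fin m → ℂ, (∀ z ∈ ball (0 : κ → ℂ) r0, ∑ j, c j * f j z = 0) → c = 0) :
    ∃ F : Fin m → (κ → ℂ) → ℂ, (∀ j, Differentiable ℂ (F j)) ∧
      ∀ z, p z = ∑ j, ε j * Complex.normSq (F j z) := by
  have hN : ∀ N : ℕ, r0 ≤ r0 + N := fun N => by
    have : (0 : ℝ) ≤ N := Nat.cast_nonneg N
    linarith
  choose G hG1 hG2 using fun N : ℕ => ext_ball h0 hp hε hf hpf hind (hN N)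
  have hagree : ∀ N N' : ℕ, N ≤ N' → ∀ j, ∀ z ∈ ball (0 : κ → ℂ) (r0 + N),
      G N j z = G N' j z := by
    intro N N' hNN j z hz
    have h1 : AnalyticOnNhd ℂ (fun z => G N j z - G N' j z) (ball 0 (r0 + N)) := fun z hz =>
      (hG1 N j z hz).sub (hG1 N' j z (ball_subset_ball (by
        have : (N : ℝ) ≤ N' := by exact_mod_cast hNN
        linarith) hz))
    have h2 : (fun z => G N j z - G N' j z) =ᶠ[𝓝 (0 : κ → ℂ)] 0 := by
      filter_upwards [ball_mem_nhds (0 : κ → ℂ) h0] with z hz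
      simp only [Pi.zero_apply]
      rw [hG2 N j z hz, hG2 N' j z hz, sub_self]
    exact sub_eq_zero.1 (h1.eqOn_zero_of_preconnected_of_eventuallyEq_zero
      (convex_ball _ _).isPreconnected (mem_ball_self (lt_of_lt_of_le h0 (hN N))) h2 hz)
  let F : Fin m → (κ → ℂ) → ℂ := fun j z => G (⌈‖z‖⌉₊) j z
  have hmem : ∀ z : κ → ℂ, z ∈ ball (0 : κ → ℂ) (r0 + (⌈‖z‖⌉₊ : ℕ)) := by
    intro z
    rw [mem_ball_zero_iff]
    have := Nat.le_ceil ‖z‖
    linarith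
  have hF : ∀ N : ℕ, ∀ j, ∀ z ∈ ball (0 : κ → ℂ) (r0 + N), F j z = G N j z := by
    intro N j z hz
    rcases le_total (⌈‖z‖⌉₊) N with h | h
    · exact hagree _ _ h j z (hmem z)
    · exact (hagree _ _ h j z hz).symm
  refine ⟨F, fun j z => ?_, fun z => ?_⟩
  · have h1 : AnalyticAt ℂ (F j) z := by
      refine (hG1 (⌈‖z‖⌉₊) j z (hmem z)).congr ?_
      filter_upwards [isOpen_ball.mem_nhds (hmem z)] with z' hz'
      exact (hF _ j z' hz').symm
    exact h1.differentiableAt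
  · have h1 := rep_ident h0 (hN (⌈‖z‖⌉₊)) hp (hG1 (⌈‖z‖⌉₊)) (ε := ε) (fun z hz => by
        rw [hpf z hz]
        exact Finset.sum_congr rfl fun j _ => by rw [hG2 _ j z hz]) z (hmem z)
    exact h1

/-- **Main theorem, in terms of lines.** -/
theorem main_lines {p : (κ → ℂ) → ℝ} (hp : AnalyticOnNhd ℝ p univ) {k : ℕ}
    (hline : ∀ a b : κ → ℂ, ∃ (ε : Fin k → ℝ) (g : Fin k → ℂ → ℂ),
      (∀ j, Differentiable ℂ (g j)) ∧ ∀ t : ℂ, p (a + t • b) = ∑ j, ε j * Complex.normSq (g j t)) :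
    ∃ (ε : Fin ((k ^ Fintype.card κ) ^ Fintype.card κ) → ℝ)
      (f : Fin ((k ^ Fintype.card κ) ^ Fintype.card κ) → (κ → ℂ) → ℂ),
      (∀ j, ε j = 1 ∨ ε j = -1) ∧ (∀ j, Differentiable ℂ (f j)) ∧
      ∀ z, p z = ∑ j, ε j * Complex.normSq (f j z) := by
  classical
  obtain ⟨r, hr, P, hP, hPp⟩ := polarize p 0 (hp 0 (mem_univ _))
  rw [star_zero] at hP
  obtain ⟨m, hm, hrep⟩ := local_rep hr hP hPp hline
  obtain ⟨m', hm', ε, f, h1, h2, h3, h4⟩ := rep_indep hrep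
  obtain ⟨F, hF1, hF2⟩ := ext_entire (by positivity) hp h1 h2 h3 h4
  have hle : m' ≤ (k ^ Fintype.card κ) ^ Fintype.card κ := hm'.trans hm
  obtain ⟨d, hd⟩ := Nat.exists_eq_add_of_le hle
  rw [hd]
  refine ⟨Fin.append ε (fun _ => 1), Fin.append F (fun _ _ => 0), fun j => ?_, fun j => ?_,
    fun z => ?_⟩
  · refine Fin.addCases (fun i => ?_) (fun i => ?_) j
    · rw [Fin.append_left]
      exact h1 i
    · rw [Fin.append_right]
      exact Or.inl rfl
  · refine Fin.addCases (fun i => ?_) (fun i => ?_) j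
    · rw [Fin.append_left]
      exact hF1 i
    · rw [Fin.append_right]
      exact differentiable_const 0
  · rw [hF2 z, Fin.sum_univ_add]
    simp [Fin.append_left, Fin.append_right]

end Pool.Agent.T2H76.HR
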